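import Mathlib

/-!
Random uniform hypergraphs: exposing the edges in two steps.
-/

set_option autoImplicit false
set_option linter.unusedSectionVars false

namespace Pool.Agent.N439.RH

open Finset

section general

variable {α : Type*} [DecidableEq α]

/-- expectation of `f` over a uniformly random subset of `E` -/
noncomputable def ex (E : Finset α) (f : Finset α → ℝ) : ℝ :=
  (∑ H ∈ E.powerset, f H) / 2 ^ E.card

/-- indicator -/
noncomputable def ind (p : Prop) : ℝ := by
  classical
  exact if p then 1 else 0

theorem ind_true {p : Prop} (h : p) : ind p = 1 := by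
  unfold ind; simp [h]

theorem ind_false {p : Prop} (h : ¬ p) : ind p = 0 := by
  unfold ind; simp [h]

theorem ind_nonneg (p : Prop) : 0 ≤ ind p := by
  by_cases h : p
  · rw [ind_true h]; norm_num
  · rw [ind_false h]

theorem ind_le_one (p : Prop) : ind p ≤ 1 := by
  by_cases h : p
  · rw [ind_true h]
  · rw [ind_false h]; norm_num

theorem ind_and (p q : Prop) : ind (p ∧ q) = ind p * ind q := by
  by_cases h : p <;> by_cases h' : q <;> simp [ind, h, h']

theorem ex_mono {E : Finset α} {f g : Finset α → ℝ} (h : ∀ H ⊆ E, f H ≤ g H) :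
    ex E f ≤ ex E g := by
  unfold ex
  apply div_le_div_of_nonneg_right _ (by positivity)
  exact sum_le_sum fun H hH => h H (mem_powerset.1 hH)

theorem ex_congr {E : Finset α} {f g : Finset α → ℝ} (h : ∀ H ⊆ E, f H = g H) :
    ex E f = ex E g := by
  unfold ex
  congr 1
  exact sum_congr rfl fun H hH => h H (mem_powerset.1 hH)

theorem ex_nonneg {E : Finset α} {f : Finset α → ℝ} (h : ∀ H ⊆ E, 0 ≤ f H) : 0 ≤ ex E f := by
  unfold ex
  exact div_nonneg (sum_nonneg fun H hH => h H (mem_powerset.1 hH)) (by positivity)

theorem ex_add (E : Finset α) (f g : Finset α → ℝ) :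
    ex E (fun H => f H + g H) = ex E f + ex E g := by
  unfold ex
  rw [sum_add_distrib, add_div]

theorem ex_sub (E : Finset α) (f g : Finset α → ℝ) :
    ex E (fun H => f H - g H) = ex E f - ex E g := by
  unfold ex
  rw [sum_sub_distrib, sub_div]

theorem ex_const_mul (E : Finset α) (c : ℝ) (f : Finset α → ℝ) :
    ex E (fun H => c * f H) = c * ex E f := by
  unfold ex
  rw [← mul_sum, mul_div_assoc]

theorem ex_sum {ι : Type*} (s : Finset ι) (E : Finset α) (f : ι → Finset α → ℝ) :
    ex E (fun H => ∑ i ∈ s, f i H) = ∑ i ∈ s, ex E (f i) := by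
  unfold ex
  rw [sum_comm, sum_div]

theorem ex_const (E : Finset α) (c : ℝ) : ex E (fun _ => c) = c := by
  unfold ex
  rw [sum_const, card_powerset, nsmul_eq_mul]
  push_cast
  field_simp

theorem sum_powerset_split {E S : Finset α} (hS : S ⊆ E) (f : Finset α → ℝ) :
    ∑ H ∈ E.powerset, f H = ∑ R ∈ (E \ S).powerset, ∑ A ∈ S.powerset, f (R ∪ A) := by
  rw [← Finset.sum_product']
  refine Finset.sum_nbij' (fun H => (H \ S, H ∩ S)) (fun p => p.1 ∪ p.2) ?_ ?_ ?_ ?_ ?_
  · intro H hH
    rw [mem_powerset] at hH
    simp only [mem_product, mem_powerset]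
    exact ⟨sdiff_subset_sdiff hH (Subset.refl _), inter_subset_right⟩
  · rintro ⟨R, A⟩ h
    simp only [mem_product, mem_powerset] at h ⊢
    exact union_subset (h.1.trans sdiff_subset) (h.2.trans hS)
  · intro H _
    exact sdiff_union_inter H S
  · rintro ⟨R, A⟩ h
    simp only [mem_product, mem_powerset] at h
    have hd : Disjoint R S := by
      refine disjoint_of_subset_left h.1 sdiff_disjoint
    simp only [Prod.mk.injEq]
    constructor
    · rw [union_sdiff_distrib, sdiff_eq_self_of_disjoint hd, sdiff_eq_empty_iff_subset.2 h.2,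
        union_empty]
    · rw [union_inter_distrib_right, disjoint_iff_inter_eq_empty.1 hd, empty_union,
        inter_eq_left.2 h.2]
  · intro H _
    rw [sdiff_union_inter]

/-- conditional probability of `P`, given that the part of the random set outside `S` is `R` -/
noncomputable def kap (S : Finset α) (P : Finset α → Prop) (R : Finset α) : ℝ :=
  (∑ A ∈ S.powerset, ind (P (R ∪ A))) / 2 ^ S.card

theorem tower {E S : Finset α} (hS : S ⊆ E) (g : Finset α → ℝ) (P : Finset α → Prop)
    (hg : ∀ H, g (H \ S) = g H) :
    ex E (fun H => g H * ind (P H)) = ex E (fun H => g H * kap S P (H \ S)) := by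
  unfold ex
  congr 1
  rw [sum_powerset_split hS, sum_powerset_split hS]
  apply sum_congr rfl
  intro R hR
  rw [mem_powerset] at hR
  have hd : Disjoint R S := disjoint_of_subset_left hR sdiff_disjoint
  have h1 : ∀ A ∈ S.powerset, (R ∪ A) \ S = R := by
    intro A hA
    rw [mem_powerset] at hA
    rw [union_sdiff_distrib, sdiff_eq_self_of_disjoint hd, sdiff_eq_empty_iff_subset.2 hA,
      union_empty]
  have h2 : ∀ A ∈ S.powerset, g (R ∪ A) = g R := by
    intro A hA
    rw [← hg (R ∪ A), h1 A hA]
  have h3 : ∑ A ∈ S.powerset, g (R ∪ A) * ind (P (R ∪ A)) =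
      g R * ∑ A ∈ S.powerset, ind (P (R ∪ A)) := by
    rw [mul_sum]
    exact sum_congr rfl fun A hA => by rw [h2 A hA]
  have h4 : ∑ A ∈ S.powerset, g (R ∪ A) * kap S P ((R ∪ A) \ S) =
      (2 : ℝ) ^ S.card * (g R * kap S P R) := by
    rw [sum_congr rfl (g := fun _ => g R * kap S P R)
      (fun A hA => by rw [h2 A hA, h1 A hA]), sum_const, card_powerset, nsmul_eq_mul]
    push_cast
    ring
  rw [h3, h4]
  unfold kap
  field_simp

/-- number of subsets of `S1 ∪ S2` with prescribed difference -/
theorem count_le {S1 S2 : Finset α} (hd : Disjoint S1 S2) {m : ℕ}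
    (hm : S1.card + S2.card = 2 * m) (x y : ℕ) :
    (((S1 ∪ S2).powerset.filter
      (fun A => (A ∩ S1).card + x = (A ∩ S2).card + y)).card : ℕ) ≤ m.centralBinom := by
  set t := S2.card + y - x with ht
  have hcard : ∀ A ⊆ S1 ∪ S2, (symmDiff A S2).card + (A ∩ S2).card = (A ∩ S1).card + S2.card := by
    intro A hA
    have h1 : A \ S2 = A ∩ S1 := by
      ext a
      simp only [mem_sdiff, mem_inter]
      constructor
      · rintro ⟨ha, hb⟩
        refine ⟨ha, ?_⟩
        rcases mem_union.1 (hA ha) with h | h
        · exact h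
        · exact absurd h hb
      · rintro ⟨ha, hb⟩
        exact ⟨ha, disjoint_left.1 hd hb⟩
    rw [symmDiff_def, sup_eq_union, card_union_of_disjoint, h1, add_assoc]
    · congr 1
      rw [inter_comm]
      exact card_sdiff_add_card_inter S2 A
    · exact disjoint_sdiff_sdiff
  calc ((S1 ∪ S2).powerset.filter (fun A => (A ∩ S1).card + x = (A ∩ S2).card + y)).card
      ≤ (powersetCard t (S1 ∪ S2)).card := by
        apply card_le_card_of_injOn (fun A => symmDiff A S2)
        · intro A hA
          rw [mem_coe, mem_filter, mem_powerset] at hA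
          rw [mem_coe, mem_powersetCard]
          constructor
          · intro a ha
            rw [mem_symmDiff] at ha
            rcases ha with ⟨h, _⟩ | ⟨h, _⟩
            · exact hA.1 h
            · exact mem_union_right _ h
          · have := hcard A hA.1
            have h2 := hA.2
            have h3 : (A ∩ S2).card ≤ S2.card := card_le_card inter_subset_right
            dsimp only
            omega
        · intro A _ B _ h
          exact symmDiff_left_injective S2 h
    _ = (2 * m).choose t := by
        rw [card_powersetCard, card_union_of_disjoint hd, hm]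
    _ ≤ m.centralBinom := Nat.choose_le_centralBinom t m

/-- exact number of subsets of `S1 ∪ S2` with prescribed difference -/
theorem count_eq {S1 S2 : Finset α} (hd : Disjoint S1 S2) {m : ℕ}
    (h1 : S1.card = m) (h2 : S2.card = m) (x y : ℕ) (hxy : x ≤ m + y) :
    (((S1 ∪ S2).powerset.filter
      (fun A => (A ∩ S1).card + x = (A ∩ S2).card + y)).card : ℕ) = (2 * m).choose (m + y - x) := by
  have hcard : ∀ A ⊆ S1 ∪ S2, (symmDiff A S2).card + (A ∩ S2).card = (A ∩ S1).card + S2.card := by
    intro A hA
    have h1 : A \ S2 = A ∩ S1 := by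
      ext a
      simp only [mem_sdiff, mem_inter]
      constructor
      · rintro ⟨ha, hb⟩
        refine ⟨ha, ?_⟩
        rcases mem_union.1 (hA ha) with h | h
        · exact h
        · exact absurd h hb
      · rintro ⟨ha, hb⟩
        exact ⟨ha, disjoint_left.1 hd hb⟩
    rw [symmDiff_def, sup_eq_union, card_union_of_disjoint, h1, add_assoc]
    · congr 1
      rw [inter_comm]
      exact card_sdiff_add_card_inter S2 A
    · exact disjoint_sdiff_sdiff
  have hU : (S1 ∪ S2).card = 2 * m := by
    rw [card_union_of_disjoint hd, h1, h2]; ring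
  rw [← hU, ← card_powersetCard]
  have hsub : ∀ A ⊆ S1 ∪ S2, symmDiff A S2 ⊆ S1 ∪ S2 := by
    intro A hA a ha
    rw [mem_symmDiff] at ha
    rcases ha with ⟨h, _⟩ | ⟨h, _⟩
    · exact hA h
    · exact mem_union_right _ h
  apply card_nbij' (fun A => symmDiff A S2) (fun A => symmDiff A S2)
  · intro A hA
    rw [mem_coe, mem_filter, mem_powerset] at hA
    rw [mem_coe, mem_powersetCard]
    refine ⟨hsub A hA.1, ?_⟩
    have := hcard A hA.1
    have h2 := hA.2
    have h3 : (A ∩ S2).card ≤ S2.card := card_le_card inter_subset_right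
    dsimp only
    omega
  · intro B hB
    rw [mem_coe, mem_powersetCard] at hB
    rw [mem_coe, mem_filter, mem_powerset]
    refine ⟨hsub B hB.1, ?_⟩
    have := hcard (symmDiff B S2) (hsub B hB.1)
    rw [symmDiff_symmDiff_cancel_right] at this
    dsimp only
    omega
  · intro A _
    exact symmDiff_symmDiff_cancel_right _ _
  · intro A _
    exact symmDiff_symmDiff_cancel_right _ _

/-- variance of a random sum -/
theorem sum_sq (T : Finset α) (a : α → ℝ) :
    ∑ A ∈ T.powerset, (∑ e ∈ A, a e) ^ 2 =
      2 ^ T.card / 4 * ((∑ e ∈ T, a e) ^ 2 + ∑ e ∈ T, a e ^ 2) := by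
  have hlin : ∀ T : Finset α, ∑ A ∈ T.powerset, (∑ e ∈ A, a e) =
      2 ^ T.card / 2 * ∑ e ∈ T, a e := by
    intro T
    induction T using Finset.induction_on with
    | empty => simp
    | insert x T hx ih =>
      rw [sum_powerset_insert hx, ih, card_insert_of_notMem hx, sum_insert hx]
      have : ∑ A ∈ T.powerset, ∑ e ∈ insert x A, a e = ∑ A ∈ T.powerset, (a x + ∑ e ∈ A, a e) := by
        apply sum_congr rfl
        intro A hA
        rw [sum_insert]
        exact fun h => hx (mem_powerset.1 hA h)
      rw [this, sum_add_distrib, ih, sum_const, card_powerset, nsmul_eq_mul, pow_succ]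
      push_cast
      ring
  induction T using Finset.induction_on with
  | empty => simp
  | insert x T hx ih =>
    rw [sum_powerset_insert hx, ih, card_insert_of_notMem hx, sum_insert hx, sum_insert hx]
    have : ∑ A ∈ T.powerset, (∑ e ∈ insert x A, a e) ^ 2 =
        ∑ A ∈ T.powerset, (a x ^ 2 + (2 * a x * ∑ e ∈ A, a e + (∑ e ∈ A, a e) ^ 2)) := by
      apply sum_congr rfl
      intro A hA
      rw [sum_insert]
      · ring
      · exact fun h => hx (mem_powerset.1 hA h)
    rw [this, sum_add_distrib, sum_add_distrib, ih, ← mul_sum, hlin, sum_const, card_powerset,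
      nsmul_eq_mul, pow_succ]
    push_cast
    ring

end general

end Pool.Agent.N439.RH
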