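import Pool.Agent.N439.RH.Hyp

/-!
Bounds for the central binomial probabilities.
-/

set_option autoImplicit false
set_option linter.unusedSectionVars false

namespace Pool.Agent.N439.RH

open Finset Real

theorem cc_pos (m : ℕ) : 0 < cc m := by
  unfold cc
  have := Nat.centralBinom_pos m
  positivity

theorem cc_sq_W (m : ℕ) : cc m ^ 2 * (Wallis.W m * (2 * m + 1)) = 1 := by
  rw [Wallis.W_eq_factorial_ratio]
  have h1 : (m.centralBinom : ℝ) * ((m.factorial : ℝ) * m.factorial) = ((2 * m).factorial : ℝ) := by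
    have := Nat.add_choose_mul_factorial_mul_factorial m m
    rw [Nat.centralBinom, two_mul]
    rw [mul_assoc] at this
    exact_mod_cast this
  have h2 : (m.factorial : ℝ) ≠ 0 := by positivity
  have h3 : ((2 * m).factorial : ℝ) ≠ 0 := by positivity
  have h4 : (2 * (m : ℝ) + 1) ≠ 0 := by positivity
  have h5 : (m.centralBinom : ℝ) = ((2 * m).factorial : ℝ) / ((m.factorial : ℝ) * m.factorial) := by
    rw [eq_div_iff (by positivity), h1]
  unfold cc
  rw [h5, show (4 : ℝ) ^ m = 2 ^ (2 * m) by rw [pow_mul]; norm_num,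
    show (2 : ℝ) ^ (4 * m) = (2 ^ (2 * m)) ^ 2 by rw [← pow_mul]; congr 1; ring]
  field_simp

theorem W_pos' (m : ℕ) : 0 < Wallis.W m := Wallis.W_pos m

theorem cc_sq_lower (m : ℕ) : 1 / (π * (m + 1 / 2)) ≤ cc m ^ 2 := by
  have h := cc_sq_W m
  have hW := Wallis.W_le m
  have hWp := W_pos' m
  have hpi := Real.pi_pos
  have hm : (0 : ℝ) < 2 * m + 1 := by positivity
  have : cc m ^ 2 = 1 / (Wallis.W m * (2 * m + 1)) := by
    rw [eq_div_iff (by positivity)]; exact h
  rw [this]
  apply one_div_le_one_div_of_le (by positivity)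
  nlinarith

theorem cc_sq_upper (m : ℕ) (hm1 : 1 ≤ m) : cc m ^ 2 ≤ 1 / (π * m) := by
  have h := cc_sq_W m
  have hW := Wallis.le_W m
  have hWp := W_pos' m
  have hpi := Real.pi_pos
  have hmR : (1 : ℝ) ≤ m := by exact_mod_cast hm1
  have hm : (0 : ℝ) < 2 * m + 1 := by positivity
  have : cc m ^ 2 = 1 / (Wallis.W m * (2 * m + 1)) := by
    rw [eq_div_iff (by positivity)]; exact h
  rw [this]
  apply one_div_le_one_div_of_le (by positivity)
  have h2 : π * m ≤ (2 * m + 1) / (2 * m + 2) * (π / 2) * (2 * m + 1) := by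
    rw [div_mul_eq_mul_div, div_mul_eq_mul_div, le_div_iff₀ (by positivity)]
    nlinarith
  nlinarith

theorem cc_antitone : Antitone cc := by
  apply antitone_nat_of_succ_le
  intro m
  unfold cc
  have h := Nat.succ_mul_centralBinom_succ m
  have h' : ((m : ℝ) + 1) * ((m + 1).centralBinom : ℝ) = 2 * (2 * m + 1) * m.centralBinom := by
    exact_mod_cast h
  rw [div_le_div_iff₀ (by positivity) (by positivity), pow_succ]
  have hp : (0 : ℝ) < 4 ^ m := by positivity
  have hc : (0 : ℝ) ≤ m.centralBinom := Nat.cast_nonneg _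
  have hm : (0 : ℝ) ≤ m := Nat.cast_nonneg _
  have h3 : ((m + 1).centralBinom : ℝ) ≤ 4 * m.centralBinom := by nlinarith
  calc ((m + 1).centralBinom : ℝ) * 4 ^ m ≤ 4 * m.centralBinom * 4 ^ m := by
        exact mul_le_mul_of_nonneg_right h3 hp.le
    _ = _ := by ring

theorem cc_le_one (m : ℕ) : cc m ≤ 1 := by
  have := cc_antitone (Nat.zero_le m)
  simpa [cc] using this

end Pool.Agent.N439.RH
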