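import Pool.Agent.N439.RH.Basic

/-!
Random uniform hypergraphs: probability of equal degrees.
-/

set_option autoImplicit false
set_option linter.unusedSectionVars false

namespace Pool.Agent.N439.RH

open Finset

variable {n : ℕ}

/-- all `k`-subsets of `Fin n` -/
abbrev Edges (n k : ℕ) : Finset (Finset (Fin n)) := powersetCard k univ

/-- degree -/
def dg (H : Finset (Finset (Fin n))) (v : Fin n) : ℕ := (H.filter (fun e => v ∈ e)).card

/-- the probability that two independent binomial variables are equal -/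
noncomputable def cc (m : ℕ) : ℝ := (m.centralBinom : ℝ) / 4 ^ m

theorem cc_nonneg (m : ℕ) : 0 ≤ cc m := by unfold cc; positivity

/-- `u` and `v` have the same degree -/
def A (u v : Fin n) (H : Finset (Finset (Fin n))) : Prop := dg H u = dg H v

theorem A_symm {u v : Fin n} {H : Finset (Finset (Fin n))} : A u v H ↔ A v u H := by
  unfold A; exact eq_comm

/-- the edges containing `u` and avoiding `F` -/
def star (k : ℕ) (u : Fin n) (F : Finset (Fin n)) : Finset (Finset (Fin n)) :=
  (Edges n k).filter (fun e => u ∈ e ∧ Disjoint e F)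

theorem mem_star {k : ℕ} {u : Fin n} {F : Finset (Fin n)} {e : Finset (Fin n)} :
    e ∈ star k u F ↔ e.card = k ∧ u ∈ e ∧ Disjoint e F := by
  unfold star
  rw [mem_filter, mem_powersetCard]
  simp

theorem star_subset (k : ℕ) (u : Fin n) (F : Finset (Fin n)) : star k u F ⊆ Edges n k :=
  filter_subset _ _

theorem card_star {k : ℕ} (hk : 1 ≤ k) {u : Fin n} {F : Finset (Fin n)} (hu : u ∉ F) :
    (star k u F).card = (n - 1 - F.card).choose (k - 1) := by
  have h1 : (univ \ insert u F : Finset (Fin n)).card = n - 1 - F.card := by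
    rw [card_sdiff_of_subset (subset_univ _), card_univ, Fintype.card_fin, card_insert_of_notMem hu]
    omega
  rw [← h1, ← card_powersetCard]
  symm
  apply card_nbij' (fun e => insert u e) (fun e => e.erase u)
  · intro e he
    rw [mem_coe, mem_powersetCard] at he
    have hue : u ∉ e := fun h => by
      have := he.1 h
      simp at this
    rw [mem_coe, mem_star]
    refine ⟨?_, mem_insert_self _ _, ?_⟩
    · rw [card_insert_of_notMem hue, he.2]; omega
    · rw [disjoint_insert_left]
      refine ⟨hu, ?_⟩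
      refine disjoint_left.2 fun a ha haF => ?_
      have := he.1 ha
      simp [haF] at this
  · intro e he
    rw [mem_coe, mem_star] at he
    rw [mem_coe, mem_powersetCard]
    refine ⟨?_, ?_⟩
    · intro a ha
      rw [mem_erase] at ha
      simp only [mem_sdiff, mem_univ, true_and, mem_insert, not_or]
      exact ⟨ha.1, disjoint_left.1 he.2.2 ha.2⟩
    · rw [card_erase_of_mem he.2.1, he.1]
  · intro e he
    rw [mem_coe, mem_powersetCard] at he
    have hue : u ∉ e := fun h => by
      have := he.1 h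
      simp at this
    exact erase_insert hue
  · intro e he
    rw [mem_coe, mem_star] at he
    exact insert_erase he.2.1

/-- `g` depends only on the edges meeting `F` -/
def Dep (F : Finset (Fin n)) (g : Finset (Finset (Fin n)) → ℝ) : Prop :=
  ∀ H S : Finset (Finset (Fin n)), (∀ e ∈ S, Disjoint e F) → g (H \ S) = g H

theorem dg_sdiff {F : Finset (Fin n)} {w : Fin n} (hw : w ∈ F) (H S : Finset (Finset (Fin n)))
    (hS : ∀ e ∈ S, Disjoint e F) : dg (H \ S) w = dg H w := by
  unfold dg
  congr 1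
  ext e
  simp only [mem_filter, mem_sdiff]
  constructor
  · rintro ⟨⟨h1, _⟩, h3⟩; exact ⟨h1, h3⟩
  · rintro ⟨h1, h3⟩
    exact ⟨⟨h1, fun h => disjoint_left.1 (hS e h) h3 hw⟩, h3⟩

theorem Dep.A {F : Finset (Fin n)} {w x : Fin n} (hw : w ∈ F) (hx : x ∈ F) :
    Dep F (fun H => ind (A w x H)) := by
  intro H S hS
  unfold RH.A
  simp only
  rw [dg_sdiff hw H S hS, dg_sdiff hx H S hS]

theorem Dep.mul {F : Finset (Fin n)} {f g : Finset (Finset (Fin n)) → ℝ} (hf : Dep F f)
    (hg : Dep F g) : Dep F (fun H => f H * g H) := by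
  intro H S hS
  simp only
  rw [hf H S hS, hg H S hS]

theorem Dep.one (F : Finset (Fin n)) : Dep F (fun _ => 1) := fun _ _ _ => rfl

theorem filter_eq {S1 S2 : Finset (Finset (Fin n))} {u v : Fin n}
    (h1 : ∀ e ∈ S1, u ∈ e ∧ v ∉ e) (h2 : ∀ e ∈ S2, v ∈ e ∧ u ∉ e)
    {B : Finset (Finset (Fin n))} (hB : B ⊆ S1 ∪ S2) :
    B.filter (fun e => u ∈ e) = B ∩ S1 ∧ B.filter (fun e => v ∈ e) = B ∩ S2 := by
  constructor
  · ext e
    simp only [mem_filter, mem_inter]
    constructor
    · rintro ⟨he, hu⟩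
      refine ⟨he, ?_⟩
      rcases mem_union.1 (hB he) with h | h
      · exact h
      · exact absurd hu (h2 e h).2
    · rintro ⟨he, hs⟩
      exact ⟨he, (h1 e hs).1⟩
  · ext e
    simp only [mem_filter, mem_inter]
    constructor
    · rintro ⟨he, hu⟩
      refine ⟨he, ?_⟩
      rcases mem_union.1 (hB he) with h | h
      · exact absurd hu (h1 e h).2
      · exact h
    · rintro ⟨he, hs⟩
      exact ⟨he, (h2 e hs).1⟩

theorem dg_union {R B : Finset (Finset (Fin n))} (h : Disjoint R B) (u : Fin n) :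
    dg (R ∪ B) u = dg R u + dg B u := by
  unfold dg
  rw [filter_union, card_union_of_disjoint]
  exact disjoint_filter_filter h

theorem sum_ind {β : Type*} [DecidableEq β] (S : Finset β) (P : Finset β → Prop) [DecidablePred P] :
    ∑ B ∈ S.powerset, ind (P B) = ((S.powerset.filter P).card : ℝ) := by
  rw [card_filter]
  push_cast
  apply sum_congr rfl
  intro B _
  by_cases h : P B
  · rw [ind_true h, if_pos h]
  · rw [ind_false h, if_neg h]

theorem kap_sum {S1 S2 : Finset (Finset (Fin n))} {u v : Fin n}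
    (h1 : ∀ e ∈ S1, u ∈ e ∧ v ∉ e) (h2 : ∀ e ∈ S2, v ∈ e ∧ u ∉ e)
    {R : Finset (Finset (Fin n))} (hR : Disjoint R (S1 ∪ S2)) :
    ∑ B ∈ (S1 ∪ S2).powerset, ind (A u v (R ∪ B)) =
      (((S1 ∪ S2).powerset.filter
        (fun B => (B ∩ S1).card + dg R u = (B ∩ S2).card + dg R v)).card : ℝ) := by
  rw [← sum_ind]
  apply sum_congr rfl
  intro B hB
  rw [mem_powerset] at hB
  have hd : Disjoint R B := disjoint_of_subset_right hB hR
  unfold A
  rw [dg_union hd, dg_union hd]
  obtain ⟨e1, e2⟩ := filter_eq h1 h2 hB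
  have e3 : dg B u = (B ∩ S1).card := by unfold dg; rw [e1]
  have e4 : dg B v = (B ∩ S2).card := by unfold dg; rw [e2]
  rw [e3, e4, add_comm (dg R u), add_comm (dg R v)]

theorem kap_le {S1 S2 : Finset (Finset (Fin n))} {u v : Fin n}
    (h1 : ∀ e ∈ S1, u ∈ e ∧ v ∉ e) (h2 : ∀ e ∈ S2, v ∈ e ∧ u ∉ e) {m : ℕ}
    (hm : S1.card + S2.card = 2 * m)
    {R : Finset (Finset (Fin n))} (hR : Disjoint R (S1 ∪ S2)) :
    kap (S1 ∪ S2) (A u v) R ≤ cc m := by
  have hd : Disjoint S1 S2 := disjoint_left.2 fun e he he' => (h2 e he').2 (h1 e he).1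
  unfold kap cc
  rw [kap_sum h1 h2 hR, card_union_of_disjoint hd, hm, pow_mul,
    show ((2 : ℝ) ^ 2) ^ m = 4 ^ m by norm_num]
  apply div_le_div_of_nonneg_right _ (by positivity)
  exact_mod_cast count_le hd hm (dg R u) (dg R v)

theorem upper {E S1 S2 : Finset (Finset (Fin n))} (hS1 : S1 ⊆ E) (hS2 : S2 ⊆ E) {u v : Fin n}
    (h1 : ∀ e ∈ S1, u ∈ e ∧ v ∉ e) (h2 : ∀ e ∈ S2, v ∈ e ∧ u ∉ e) {m : ℕ}
    (hm : S1.card + S2.card = 2 * m) {g : Finset (Finset (Fin n)) → ℝ}
    (hg : ∀ H, g (H \ (S1 ∪ S2)) = g H) (hg0 : ∀ H, 0 ≤ g H) :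
    ex E (fun H => g H * ind (A u v H)) ≤ cc m * ex E g := by
  rw [tower (union_subset hS1 hS2) g (A u v) hg, ← ex_const_mul]
  apply ex_mono
  intro H _
  rw [mul_comm (cc m)]
  exact mul_le_mul_of_nonneg_left (kap_le h1 h2 hm sdiff_disjoint) (hg0 H)

theorem upperF {k : ℕ} (hk : 1 ≤ k) {F : Finset (Fin n)} {u v : Fin n} (huv : u ≠ v) (hu : u ∉ F)
    (hv : v ∉ F) {g : Finset (Finset (Fin n)) → ℝ} (hg : Dep F g) (hg0 : ∀ H, 0 ≤ g H) :
    ex (Edges n k) (fun H => g H * ind (A u v H)) ≤
      cc ((n - 2 - F.card).choose (k - 1)) * ex (Edges n k) g := by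
  apply upper (S1 := star k u (insert v F)) (S2 := star k v (insert u F)) (star_subset _ _ _)
    (star_subset _ _ _)
  · intro e he
    rw [mem_star, disjoint_insert_right] at he
    exact ⟨he.2.1, he.2.2.1⟩
  · intro e he
    rw [mem_star, disjoint_insert_right] at he
    exact ⟨he.2.1, he.2.2.1⟩
  · rw [card_star hk (by simp [huv, hu]), card_star hk (by simp [huv.symm, hv]),
      card_insert_of_notMem hu, card_insert_of_notMem hv,
      show n - 1 - (F.card + 1) = n - 2 - F.card by omega]
    ring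
  · intro H
    apply hg
    intro e he
    rcases mem_union.1 he with he | he
    · rw [mem_star, disjoint_insert_right] at he
      exact he.2.2.2
    · rw [mem_star, disjoint_insert_right] at he
      exact he.2.2.2
  · exact hg0

theorem leafF {k : ℕ} (hk : 1 ≤ k) {F : Finset (Fin n)} {s t : Fin n} (ht : t ∉ F)
    (hs : s ∈ F) {g : Finset (Finset (Fin n)) → ℝ} (hg : Dep F g) (hg0 : ∀ H, 0 ≤ g H) {m : ℕ}
    (hm : 2 * m ≤ (n - 1 - F.card).choose (k - 1)) :
    ex (Edges n k) (fun H => g H * ind (A s t H)) ≤ cc m * ex (Edges n k) g := by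
  rw [← card_star hk ht] at hm
  obtain ⟨T, hT, hTc⟩ := exists_subset_card_eq hm
  apply upper (S1 := ∅) (S2 := T) (empty_subset _) (hT.trans (star_subset _ _ _))
  · intro e he
    exact absurd he (notMem_empty _)
  · intro e he
    have := hT he
    rw [mem_star] at this
    exact ⟨this.2.1, fun h => disjoint_left.1 this.2.2 h hs⟩
  · rw [card_empty, hTc]; ring
  · intro H
    apply hg
    intro e he
    rw [empty_union] at he
    have := hT he
    rw [mem_star] at this
    exact this.2.2
  · exact hg0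

/-- exact probability that two given vertices have the same degree -/
theorem exact_pair {k : ℕ} (hk : 1 ≤ k) {u v : Fin n} (huv : u ≠ v) :
    ex (Edges n k) (fun H => ind (A u v H)) = cc ((n - 2).choose (k - 1)) := by
  have hS : star k u {v} ∪ star k v {u} ⊆ Edges n k :=
    union_subset (star_subset _ _ _) (star_subset _ _ _)
  have h1 : ∀ e ∈ star k u {v}, u ∈ e ∧ v ∉ e := by
    intro e he
    rw [mem_star, disjoint_singleton_right] at he
    exact ⟨he.2.1, he.2.2⟩
  have h2 : ∀ e ∈ star k v {u}, v ∈ e ∧ u ∉ e := by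
    intro e he
    rw [mem_star, disjoint_singleton_right] at he
    exact ⟨he.2.1, he.2.2⟩
  have hd : Disjoint (star k u {v}) (star k v {u}) :=
    disjoint_left.2 fun e he he' => (h2 e he').2 (h1 e he).1
  have c1 : (star k u {v}).card = (n - 2).choose (k - 1) := by
    rw [card_star hk (by simp [huv]), card_singleton]; rfl
  have c2 : (star k v {u}).card = (n - 2).choose (k - 1) := by
    rw [card_star hk (by simp [huv.symm]), card_singleton]; rfl
  have ht := tower hS (fun _ => 1) (A u v) (fun _ => rfl)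
  simp only [one_mul] at ht
  rw [ht]
  rw [← ex_const (Edges n k) (cc ((n - 2).choose (k - 1)))]
  apply ex_congr
  intro H hH
  unfold kap
  rw [kap_sum h1 h2 sdiff_disjoint]
  have e1 : dg (H \ (star k u {v} ∪ star k v {u})) u = dg (H \ (star k u {v} ∪ star k v {u})) v := by
    unfold dg
    congr 1
    ext e
    simp only [mem_filter, mem_sdiff, mem_union, mem_star, disjoint_singleton_right]
    constructor
    · rintro ⟨⟨he, hn⟩, hu⟩
      refine ⟨⟨he, hn⟩, ?_⟩
      by_contra hv
      exact hn (Or.inl ⟨(mem_powersetCard.1 (hH he)).2, hu, hv⟩)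
    · rintro ⟨⟨he, hn⟩, hv⟩
      refine ⟨⟨he, hn⟩, ?_⟩
      by_contra hu
      exact hn (Or.inr ⟨(mem_powersetCard.1 (hH he)).2, hv, hu⟩)
  rw [e1, count_eq hd c1 c2 _ _ (by omega), card_union_of_disjoint hd, c1, c2]
  unfold cc
  rw [Nat.centralBinom, Nat.add_sub_cancel, ← two_mul, pow_mul]
  norm_num

theorem choose_shift (m a : ℕ) (ha : a ≤ m) :
    (m.centralBinom : ℝ) * (1 - (a : ℝ) ^ 2 / m) ≤ ((2 * m).choose (m + a) : ℝ) := by
  rcases Nat.eq_zero_or_pos m with h0 | hm
  · subst h0
    have : a = 0 := by omega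
    subst this
    simp
  induction a with
  | zero => simp [Nat.centralBinom]
  | succ a ih =>
    have ih' := ih (by omega)
    have hmR : (0 : ℝ) < m := by exact_mod_cast hm
    have haR : ((a : ℝ) + 1) ≤ m := by exact_mod_cast ha
    -- choose (m+a+1) * (m+a+1) = choose (m+a) * (m-a)
    have hrec := Nat.choose_succ_right_eq (2 * m) (m + a)
    have h2 : 2 * m - (m + a) = m - a := by omega
    rw [h2] at hrec
    have hrec' : ((2 * m).choose (m + a + 1) : ℝ) * (m + a + 1) =
        ((2 * m).choose (m + a) : ℝ) * (m - a) := by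
      have := congrArg (fun x : ℕ => (x : ℝ)) hrec
      push_cast [Nat.cast_sub (show a ≤ m by omega)] at this
      exact this
    have hpos : (0 : ℝ) < m + a + 1 := by positivity
    rw [show m + (a + 1) = m + a + 1 by ring]
    rw [← mul_le_mul_iff_left₀ hpos, hrec']
    have hc : (0 : ℝ) ≤ (m.centralBinom : ℝ) := Nat.cast_nonneg _
    by_cases hneg : 1 - (((a + 1 : ℕ) : ℝ)) ^ 2 / m ≤ 0
    · calc (m.centralBinom : ℝ) * (1 - (((a + 1 : ℕ) : ℝ)) ^ 2 / m) * (m + a + 1) ≤ 0 := by
            apply mul_nonpos_of_nonpos_of_nonneg _ hpos.le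
            exact mul_nonpos_of_nonneg_of_nonpos hc hneg
        _ ≤ _ := by
            apply mul_nonneg (Nat.cast_nonneg _)
            linarith
    · push Not at hneg
      have h5 : (m.centralBinom : ℝ) * (1 - (a : ℝ) ^ 2 / m) * (m - a) ≤
          ((2 * m).choose (m + a) : ℝ) * (m - a) :=
        mul_le_mul_of_nonneg_right ih' (by linarith)
      refine le_trans ?_ h5
      rw [mul_assoc, mul_assoc]
      apply mul_le_mul_of_nonneg_left _ hc
      push_cast at hneg ⊢
      have e1 : (1 - ((a : ℝ) + 1) ^ 2 / m) * (m + a + 1) * m =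
          (m - ((a : ℝ) + 1) ^ 2) * (m + a + 1) := by
        field_simp
      have e2 : (1 - (a : ℝ) ^ 2 / m) * (m - a) * m = (m - (a : ℝ) ^ 2) * (m - a) := by
        field_simp
      rw [← mul_le_mul_iff_left₀ hmR, e1, e2]
      have ha0 : (0 : ℝ) ≤ a := Nat.cast_nonneg _
      nlinarith [mul_nonneg ha0 ha0, mul_nonneg (mul_nonneg ha0 ha0) ha0, mul_nonneg ha0 hmR.le]

/-- sum of the numbers `[u ∈ e] - [v ∈ e]` -/
theorem dg_sub_eq (R : Finset (Finset (Fin n))) (u v : Fin n) :
    (dg R u : ℝ) - dg R v = ∑ e ∈ R, ((if u ∈ e then (1 : ℝ) else 0) - (if v ∈ e then 1 else 0)) := by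
  unfold dg
  rw [card_filter, card_filter, sum_sub_distrib]
  push_cast
  rfl

theorem kap_ge {S1 S2 : Finset (Finset (Fin n))} {u v : Fin n}
    (h1 : ∀ e ∈ S1, u ∈ e ∧ v ∉ e) (h2 : ∀ e ∈ S2, v ∈ e ∧ u ∉ e) {m : ℕ}
    (hm1 : S1.card = m) (hm2 : S2.card = m) (hm : 1 ≤ m)
    {R : Finset (Finset (Fin n))} (hR : Disjoint R (S1 ∪ S2)) :
    cc m * (1 - ((dg R u : ℝ) - dg R v) ^ 2 / m) ≤ kap (S1 ∪ S2) (A u v) R := by
  have hd : Disjoint S1 S2 := disjoint_left.2 fun e he he' => (h2 e he').2 (h1 e he).1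
  have hmR : (1 : ℝ) ≤ m := by exact_mod_cast hm
  unfold kap cc
  rw [kap_sum h1 h2 hR, card_union_of_disjoint hd, hm1, hm2, ← two_mul, pow_mul,
    show ((2 : ℝ) ^ 2) ^ m = 4 ^ m by norm_num, div_mul_eq_mul_div]
  apply div_le_div_of_nonneg_right _ (by positivity)
  have hneg : ∀ x : ℝ, (m : ℝ) < x → (m.centralBinom : ℝ) * (1 - x ^ 2 / m) ≤ 0 := by
    intro x hx
    apply mul_nonpos_of_nonneg_of_nonpos (Nat.cast_nonneg _)
    rw [sub_nonpos, le_div_iff₀ (by linarith)]
    nlinarith
  rcases le_total (dg R u) (dg R v) with h | h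
  · -- x ≤ y
    obtain ⟨a, ha⟩ := Nat.exists_eq_add_of_le h
    have haR : ((dg R u : ℝ) - dg R v) ^ 2 = (a : ℝ) ^ 2 := by
      rw [ha]; push_cast; ring
    rw [haR]
    by_cases ham : a ≤ m
    · rw [count_eq hd hm1 hm2 _ _ (by omega), show m + dg R v - dg R u = m + a by omega]
      exact choose_shift m a ham
    · push Not at ham
      refine le_trans (hneg a (by exact_mod_cast ham)) (Nat.cast_nonneg _)
  · obtain ⟨a, ha⟩ := Nat.exists_eq_add_of_le h
    have haR : ((dg R u : ℝ) - dg R v) ^ 2 = (a : ℝ) ^ 2 := by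
      rw [ha]; push_cast; ring
    rw [haR]
    by_cases ham : a ≤ m
    · rw [count_eq hd hm1 hm2 _ _ (by omega), show m + dg R v - dg R u = m - a by omega]
      have : (2 * m).choose (m - a) = (2 * m).choose (m + a) := by
        rw [← Nat.choose_symm (by omega : m - a ≤ 2 * m)]
        congr 1
        omega
      rw [this]
      exact choose_shift m a ham
    · push Not at ham
      refine le_trans (hneg a (by exact_mod_cast ham)) (Nat.cast_nonneg _)

/-- the mean square of the difference of the degrees outside `S` -/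
theorem ex_sq {k : ℕ} (hk : 1 ≤ k) {u v : Fin n} (huv : u ≠ v) {F : Finset (Fin n)}
    (hu : u ∉ F) (hv : v ∉ F) :
    ex (Edges n k) (fun H =>
      ((dg (H \ (star k u (insert v F) ∪ star k v (insert u F))) u : ℝ) -
        dg (H \ (star k u (insert v F) ∪ star k v (insert u F))) v) ^ 2) =
      (((n - 2).choose (k - 1) : ℕ) - ((n - 2 - F.card).choose (k - 1) : ℕ) : ℝ) / 2 := by
  set S1 := star k u (insert v F) with hS1
  set S2 := star k v (insert u F) with hS2
  set N := (n - 2).choose (k - 1) with hN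
  set m := (n - 2 - F.card).choose (k - 1) with hm
  have c1 : S1.card = m := by
    rw [hS1, card_star hk (by simp [huv, hu]), card_insert_of_notMem hv, hm]
    congr 1; omega
  have c2 : S2.card = m := by
    rw [hS2, card_star hk (by simp [huv.symm, hv]), card_insert_of_notMem hu, hm]
    congr 1; omega
  have cN1 : (star k u {v}).card = N := by
    rw [card_star hk (by simp [huv]), card_singleton]; rfl
  have cN2 : (star k v {u}).card = N := by
    rw [card_star hk (by simp [huv.symm]), card_singleton]; rfl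
  have sub1 : S1 ⊆ star k u {v} := by
    intro e he
    rw [hS1, mem_star, disjoint_insert_right] at he
    rw [mem_star, disjoint_singleton_right]
    exact ⟨he.1, he.2.1, he.2.2.1⟩
  have sub2 : S2 ⊆ star k v {u} := by
    intro e he
    rw [hS2, mem_star, disjoint_insert_right] at he
    rw [mem_star, disjoint_singleton_right]
    exact ⟨he.1, he.2.1, he.2.2.1⟩
  set a : Finset (Fin n) → ℝ := fun e =>
    (if e ∈ star k u {v} \ S1 then (1 : ℝ) else 0) - (if e ∈ star k v {u} \ S2 then 1 else 0) with ha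
  have key : ∀ H ⊆ Edges n k, (dg (H \ (S1 ∪ S2)) u : ℝ) - dg (H \ (S1 ∪ S2)) v = ∑ e ∈ H, a e := by
    intro H hH
    rw [dg_sub_eq, sdiff_eq_filter, sum_filter]
    apply sum_congr rfl
    intro e he
    have hek : e.card = k := (mem_powersetCard.1 (hH he)).2
    by_cases h1 : e ∈ S1
    · have h3 := sub1 h1
      rw [mem_star, disjoint_singleton_right] at h3
      have h4 : e ∉ star k v {u} := by
        rw [mem_star]; exact fun h => h3.2.2 h.2.1
      simp [ha, h1, h4]
    · by_cases h2 : e ∈ S2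
      · have h3 := sub2 h2
        rw [mem_star, disjoint_singleton_right] at h3
        have h4 : e ∉ star k u {v} := by
          rw [mem_star]; exact fun h => h3.2.2 h.2.1
        simp [ha, h2, h4]
      · simp only [ha, mem_union, h1, h2, or_self, not_false_eq_true, if_true, mem_sdiff, and_true,
          mem_star, hek, true_and, disjoint_singleton_right]
        by_cases h3 : u ∈ e <;> by_cases h4 : v ∈ e <;> simp [h3, h4]
  have hdis : Disjoint (star k u {v} \ S1) (star k v {u} \ S2) := by
    refine disjoint_left.2 fun e he he' => ?_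
    rw [mem_sdiff, mem_star, disjoint_singleton_right] at he he'
    exact he.1.2.2 he'.1.2.1
  have d1 : ((star k u {v} \ S1).card : ℝ) = N - m := by
    rw [card_sdiff_of_subset sub1, Nat.cast_sub (card_le_card sub1), cN1, c1]
  have d2 : ((star k v {u} \ S2).card : ℝ) = N - m := by
    rw [card_sdiff_of_subset sub2, Nat.cast_sub (card_le_card sub2), cN2, c2]
  have i1 : ∑ e ∈ Edges n k, (if e ∈ star k u {v} \ S1 then (1 : ℝ) else 0) = N - m := by
    rw [sum_ite_mem, sum_const, nsmul_eq_mul, mul_one, inter_eq_right.2, d1]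
    exact sdiff_subset.trans (star_subset _ _ _)
  have i2 : ∑ e ∈ Edges n k, (if e ∈ star k v {u} \ S2 then (1 : ℝ) else 0) = N - m := by
    rw [sum_ite_mem, sum_const, nsmul_eq_mul, mul_one, inter_eq_right.2, d2]
    exact sdiff_subset.trans (star_subset _ _ _)
  have j1 : ∑ e ∈ Edges n k, a e = 0 := by
    rw [ha, sum_sub_distrib, i1, i2, sub_self]
  have j2 : ∑ e ∈ Edges n k, a e ^ 2 = 2 * (N - m) := by
    have : ∀ e ∈ Edges n k, a e ^ 2 = (if e ∈ star k u {v} \ S1 then (1 : ℝ) else 0) +
        (if e ∈ star k v {u} \ S2 then 1 else 0) := by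
      intro e _
      simp only [ha]
      by_cases h1 : e ∈ star k u {v} \ S1
      · have h2 := disjoint_left.1 hdis h1
        rw [if_pos h1, if_neg h2]; norm_num
      · by_cases h2 : e ∈ star k v {u} \ S2
        · rw [if_neg h1, if_pos h2]; norm_num
        · rw [if_neg h1, if_neg h2]; norm_num
    rw [sum_congr rfl this, sum_add_distrib, i1, i2]
    ring
  have hcongr : ex (Edges n k) (fun H =>
      ((dg (H \ (S1 ∪ S2)) u : ℝ) - dg (H \ (S1 ∪ S2)) v) ^ 2) =
      ex (Edges n k) (fun H => (∑ e ∈ H, a e) ^ 2) := by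
    apply ex_congr
    intro H hH
    rw [key H hH]
  rw [hcongr]
  unfold ex
  rw [sum_sq, j1, j2]
  field_simp
  ring

/-- lower bound of the probability that two disjoint pairs are both coincident -/
theorem lower {k : ℕ} (hk : 1 ≤ k) {u v w x : Fin n} (huv : u ≠ v) (huw : u ≠ w) (hux : u ≠ x)
    (hvw : v ≠ w) (hvx : v ≠ x) (hwx : w ≠ x) (hm : 1 ≤ (n - 4).choose (k - 1)) :
    cc ((n - 4).choose (k - 1)) * (cc ((n - 2).choose (k - 1)) - cc ((n - 4).choose (k - 1)) *
      ((((n - 2).choose (k - 1) : ℕ) - ((n - 4).choose (k - 1) : ℕ) : ℝ) / 2) /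
        ((n - 4).choose (k - 1) : ℕ)) ≤
      ex (Edges n k) (fun H => ind (A w x H) * ind (A u v H)) := by
  set m := (n - 4).choose (k - 1) with hmdef
  set F : Finset (Fin n) := {w, x} with hF
  have hFc : F.card = 2 := by rw [hF, card_pair hwx]
  have hu : u ∉ F := by simp [hF, huw, hux]
  have hv : v ∉ F := by simp [hF, hvw, hvx]
  set S1 := star k u (insert v F) with hS1
  set S2 := star k v (insert u F) with hS2
  have c1 : S1.card = m := by
    rw [hS1, card_star hk (by simp [huv, hu]), card_insert_of_notMem hv, hFc]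
    congr 1
  have c2 : S2.card = m := by
    rw [hS2, card_star hk (by simp [huv.symm, hv]), card_insert_of_notMem hu, hFc]
    congr 1
  have h1 : ∀ e ∈ S1, u ∈ e ∧ v ∉ e := by
    intro e he
    rw [hS1, mem_star, disjoint_insert_right] at he
    exact ⟨he.2.1, he.2.2.1⟩
  have h2 : ∀ e ∈ S2, v ∈ e ∧ u ∉ e := by
    intro e he
    rw [hS2, mem_star, disjoint_insert_right] at he
    exact ⟨he.2.1, he.2.2.1⟩
  have hSF : ∀ e ∈ S1 ∪ S2, Disjoint e F := by
    intro e he
    rcases mem_union.1 he with he | he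
    · rw [hS1, mem_star, disjoint_insert_right] at he
      exact he.2.2.2
    · rw [hS2, mem_star, disjoint_insert_right] at he
      exact he.2.2.2
  have hdep : Dep F (fun H => ind (A w x H)) := Dep.A (by simp [hF]) (by simp [hF])
  set a2 : Finset (Finset (Fin n)) → ℝ := fun H =>
    ((dg (H \ (S1 ∪ S2)) u : ℝ) - dg (H \ (S1 ∪ S2)) v) ^ 2 with ha2
  have hmR : (1 : ℝ) ≤ m := by exact_mod_cast hm
  rw [tower (union_subset (star_subset _ _ _) (star_subset _ _ _)) (fun H => ind (A w x H)) (A u v)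
    (fun H => hdep H _ hSF)]
  have step1 : ex (Edges n k) (fun H => cc m * ind (A w x H) - cc m / m * (a2 H * ind (A w x H))) ≤
      ex (Edges n k) (fun H => ind (A w x H) * kap (S1 ∪ S2) (A u v) (H \ (S1 ∪ S2))) := by
    apply ex_mono
    intro H _
    have hk1 := kap_ge h1 h2 c1 c2 hm (R := H \ (S1 ∪ S2)) sdiff_disjoint
    have := mul_le_mul_of_nonneg_left hk1 (ind_nonneg (A w x H))
    refine le_trans (le_of_eq ?_) this
    simp only [ha2]
    field_simp
  refine le_trans ?_ step1
  rw [ex_sub, ex_const_mul, ex_const_mul, exact_pair hk hwx]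
  -- the error term
  have step2 : ex (Edges n k) (fun H => a2 H * ind (A w x H)) ≤ cc m * ex (Edges n k) a2 := by
    have := upperF (n := n) hk (F := {u, v}) hwx (by simp [huw.symm, hvw.symm])
      (by simp [hux.symm, hvx.symm]) (g := a2) ?_ (fun H => by simp only [ha2]; positivity)
    · rw [card_pair huv] at this
      exact this
    · intro H T hT
      have e1 : ∀ H' : Finset (Finset (Fin n)), (H' \ T) \ (S1 ∪ S2) = (H' \ (S1 ∪ S2)) \ T := by
        intro H'
        rw [sdiff_sdiff_comm]
      simp only [ha2]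
      rw [e1, dg_sdiff (F := {u, v}) (by simp) _ _ hT, dg_sdiff (F := {u, v}) (by simp) _ _ hT]
  have step3 : ex (Edges n k) a2 = (((n - 2).choose (k - 1) : ℕ) - (m : ℝ)) / 2 := by
    have := ex_sq hk huv hu hv
    rw [hFc] at this
    exact this
  rw [step3] at step2
  have hc : 0 ≤ cc m / m := div_nonneg (cc_nonneg m) (by linarith)
  have := mul_le_mul_of_nonneg_left step2 hc
  have e : cc m * (cc ((n - 2).choose (k - 1)) - cc m * ((((n - 2).choose (k - 1) : ℕ) - (m : ℝ)) / 2) / m) =
      cc m * cc ((n - 2).choose (k - 1)) -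
        cc m / m * (cc m * ((((n - 2).choose (k - 1) : ℕ) - (m : ℝ)) / 2)) := by
    field_simp
  rw [e]
  linarith

end Pool.Agent.N439.RH
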