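import Pool.Agent.N439.RH.Second

/-!
Limits.
-/

set_option autoImplicit false
set_option linter.unusedSectionVars false

namespace Pool.Agent.N439.RH

open Finset Real Filter Topology

theorem tendsto_sub_div (j : ℕ) :
    Tendsto (fun n : ℕ => ((n - j : ℕ) : ℝ) / n) atTop (𝓝 1) := by
  have h1 : Tendsto (fun n : ℕ => 1 - (j : ℝ) / n) atTop (𝓝 (1 - 0)) :=
    tendsto_const_nhds.sub (tendsto_const_div_atTop_nhds_zero_nat (j : ℝ))
  rw [sub_zero] at h1
  refine h1.congr' ?_
  filter_upwards [eventually_ge_atTop (j + 1)] with n hn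
  rw [Nat.cast_sub (by omega)]
  have : (n : ℝ) ≠ 0 := by
    have : (0 : ℝ) < n := by exact_mod_cast (show 0 < n by omega)
    exact this.ne'
  field_simp

theorem tendsto_choose (j r : ℕ) :
    Tendsto (fun n : ℕ => ((n - j).choose r : ℝ) / (n : ℝ) ^ r) atTop
      (𝓝 (1 / (r.factorial : ℝ))) := by
  have h0 : Tendsto (fun n : ℕ => (n.choose r : ℝ) / (n : ℝ) ^ r) atTop
      (𝓝 (1 / (r.factorial : ℝ))) := by
    have h := isEquivalent_choose r
    have h2 := (Asymptotics.isEquivalent_iff_tendsto_one ?_).1 h
    · have h3 := h2.mul_const (1 / (r.factorial : ℝ))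
      rw [one_mul] at h3
      refine h3.congr' ?_
      filter_upwards [eventually_ge_atTop 1] with n hn
      have : (n : ℝ) ≠ 0 := by
        have : (0 : ℝ) < n := by exact_mod_cast (show 0 < n by omega)
        exact this.ne'
      have h4 : (r.factorial : ℝ) ≠ 0 := by positivity
      simp only [Pi.div_apply]
      field_simp
    · filter_upwards [eventually_ge_atTop 1] with n hn
      have : (0 : ℝ) < n := by exact_mod_cast (show 0 < n by omega)
      have h4 : (r.factorial : ℝ) ≠ 0 := by positivity
      positivity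
  have h1 := h0.comp (tendsto_sub_atTop_nat j)
  have h2 := (tendsto_sub_div j).pow r
  have h3 := h1.mul h2
  rw [one_pow, mul_one] at h3
  refine h3.congr' ?_
  filter_upwards [eventually_ge_atTop (j + 1)] with n hn
  simp only [Function.comp]
  have hn0 : (n : ℝ) ≠ 0 := by
    have : (0 : ℝ) < n := by exact_mod_cast (show 0 < n by omega)
    exact this.ne'
  have hnj : ((n - j : ℕ) : ℝ) ≠ 0 := by
    have : (0 : ℝ) < ((n - j : ℕ) : ℝ) := by exact_mod_cast (show 0 < n - j by omega)
    exact this.ne'
  rw [div_pow]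
  field_simp

end Pool.Agent.N439.RH
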