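import Pool.Agent.N439.RH.Lim

/-!
For `k ≤ 4`, a random `k`-uniform hypergraph has two vertices of equal degree with probability
tending to one.
-/

set_option autoImplicit false
set_option linter.unusedSectionVars false

namespace Pool.Agent.N439.RH

open Finset Real Filter Topology

/-- the probability that there is no coincident pair -/
noncomputable def p0 (n k : ℕ) : ℝ := ex (Edges n k) (fun H => ind (∀ p ∈ Pairs n, ¬ A p.1 p.2 H))

theorem p0_nonneg (n k : ℕ) : 0 ≤ p0 n k := ex_nonneg fun _ _ => ind_nonneg _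

theorem le_sqrt_mul {x y z : ℝ} (hx : 0 ≤ x) (hy : 0 ≤ y) (hz : 0 ≤ z) (h : x ^ 2 ≤ z * y ^ 2) :
    x ≤ √z * y := by
  rw [← Real.sqrt_sq hy, ← Real.sqrt_mul hz]
  exact Real.le_sqrt_of_sq_le h

theorem p0_le {n r : ℕ} (hn : 2 ≤ n) {m : ℕ} (hm : 2 * m ≤ (n - 4).choose r) (hm1 : 1 ≤ m) :
    p0 n (r + 1) ≤
      ((((n - 2).choose r : ℝ) + 1 / 2) / ((n - 4).choose r : ℝ) - 1) +
      16 * (n : ℝ) / ((n : ℝ) - 1) ^ 2 * √((((n - 2).choose r : ℝ) + 1 / 2) / m) +
      √(π * (((n - 2).choose r : ℝ) + 1 / 2) / ((n : ℝ) * (n - 1) / 2) ^ 2) := by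
  have hsm := second_moment (n := n) (k := r + 1) (by omega) (m := m) (by simpa using hm)
  rw [Nat.add_sub_cancel] at hsm
  set a : ℝ := ((Pairs n).card : ℝ) with ha
  set N : ℕ := (n - 2).choose r with hN
  set N' : ℕ := (n - 4).choose r with hN'
  have haeq : a = (n : ℝ) * (n - 1) / 2 := by
    have := card_Pairs_two n
    rw [← ha] at this
    linarith
  have hnR : (2 : ℝ) ≤ n := by exact_mod_cast hn
  have hapos : 0 < a := by rw [haeq]; nlinarith
  have hN'1 : 1 ≤ N' := by omega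
  have hN'R : (1 : ℝ) ≤ N' := by exact_mod_cast hN'1
  have hNN : N' ≤ N := Nat.choose_le_choose _ (by omega)
  have hmR : (1 : ℝ) ≤ m := by exact_mod_cast hm1
  have hc := cc_pos N
  have hc' := cc_pos N'
  have hcm := cc_pos m
  have hpi := Real.pi_pos
  have hNR : (0 : ℝ) ≤ N := Nat.cast_nonneg _
  have hlow := cc_sq_lower N
  have hup' := cc_sq_upper N' hN'1
  have hupm := cc_sq_upper m hm1
  -- ratio 1
  have r1 : cc N' ≤ ((N : ℝ) + 1 / 2) / N' * cc N := by
    have h1 : cc N' ^ 2 ≤ ((N : ℝ) + 1 / 2) / N' * cc N ^ 2 := by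
      calc cc N' ^ 2 ≤ 1 / (π * N') := hup'
        _ = ((N : ℝ) + 1 / 2) / N' * (1 / (π * (N + 1 / 2))) := by field_simp
        _ ≤ _ := mul_le_mul_of_nonneg_left hlow (by positivity)
    have h2 : cc N ≤ cc N' := cc_antitone hNN
    have h3 : cc N' * cc N ≤ cc N' ^ 2 := by nlinarith
    have h4 : cc N' * cc N ≤ ((N : ℝ) + 1 / 2) / N' * cc N * cc N := by
      calc cc N' * cc N ≤ cc N' ^ 2 := h3
        _ ≤ _ := h1
        _ = _ := by ring
    exact le_of_mul_le_mul_right h4 hc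
  have r2 : cc m ≤ √(((N : ℝ) + 1 / 2) / m) * cc N := by
    apply le_sqrt_mul hcm.le hc.le (by positivity)
    calc cc m ^ 2 ≤ 1 / (π * m) := hupm
      _ = ((N : ℝ) + 1 / 2) / m * (1 / (π * (N + 1 / 2))) := by field_simp
      _ ≤ _ := mul_le_mul_of_nonneg_left hlow (by positivity)
  have r3 : 1 ≤ √(π * ((N : ℝ) + 1 / 2) / a ^ 2) * (a * cc N) := by
    apply le_sqrt_mul (by norm_num) (by positivity) (by positivity)
    have : π * ((N : ℝ) + 1 / 2) / a ^ 2 * (a * cc N) ^ 2 = π * ((N : ℝ) + 1 / 2) * cc N ^ 2 := by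
      field_simp
    rw [this]
    have h5 : π * ((N : ℝ) + 1 / 2) * (1 / (π * (N + 1 / 2))) = 1 := by field_simp
    calc (1 : ℝ) ^ 2 = π * ((N : ℝ) + 1 / 2) * (1 / (π * (N + 1 / 2))) := by rw [h5]; norm_num
      _ ≤ _ := mul_le_mul_of_nonneg_left hlow (by positivity)
  have hp0 : p0 n (r + 1) * (a * cc N) ^ 2 ≤
      (((N : ℝ) + 1 / 2) / N' - 1 + 16 * (n : ℝ) / ((n : ℝ) - 1) ^ 2 * √(((N : ℝ) + 1 / 2) / m) +
        √(π * ((N : ℝ) + 1 / 2) / a ^ 2)) * (a * cc N) ^ 2 := by
    refine hsm.trans ?_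
    have t1 : a ^ 2 * (cc N' * cc N) ≤ ((N : ℝ) + 1 / 2) / N' * (a * cc N) ^ 2 := by
      calc a ^ 2 * (cc N' * cc N) ≤ a ^ 2 * (((N : ℝ) + 1 / 2) / N' * cc N * cc N) := by
            apply mul_le_mul_of_nonneg_left _ (by positivity)
            exact mul_le_mul_of_nonneg_right r1 hc.le
        _ = _ := by ring
    have hn1 : (0 : ℝ) < (n : ℝ) - 1 := by linarith
    have t2 : 4 * (n : ℝ) ^ 3 * (cc m * cc N) ≤
        16 * (n : ℝ) / ((n : ℝ) - 1) ^ 2 * √(((N : ℝ) + 1 / 2) / m) * (a * cc N) ^ 2 := by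
      calc 4 * (n : ℝ) ^ 3 * (cc m * cc N) ≤
            4 * (n : ℝ) ^ 3 * (√(((N : ℝ) + 1 / 2) / m) * cc N * cc N) := by
            apply mul_le_mul_of_nonneg_left _ (by positivity)
            exact mul_le_mul_of_nonneg_right r2 hc.le
        _ = _ := by
            rw [haeq]
            field_simp
            ring
    have t3 : a * cc N ≤ √(π * ((N : ℝ) + 1 / 2) / a ^ 2) * (a * cc N) ^ 2 := by
      have hac : 0 < a * cc N := by positivity
      calc a * cc N = 1 * (a * cc N) := by ring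
        _ ≤ √(π * ((N : ℝ) + 1 / 2) / a ^ 2) * (a * cc N) * (a * cc N) :=
            mul_le_mul_of_nonneg_right r3 hac.le
        _ = _ := by ring
    nlinarith
  have hac : 0 < (a * cc N) ^ 2 := by positivity
  have := le_of_mul_le_mul_right hp0 hac
  rw [haeq] at this
  exact this

theorem tendsto_p0 {r : ℕ} (hr : r ≤ 3) (hr1 : 1 ≤ r) :
    Tendsto (fun n : ℕ => p0 n (r + 1)) atTop (𝓝 0) := by
  have hf : (0 : ℝ) < 1 / (r.factorial : ℝ) := by positivity
  set f : ℝ := 1 / (r.factorial : ℝ) with hfdef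
  have hninf : Tendsto (fun n : ℕ => (n : ℝ)) atTop atTop := tendsto_natCast_atTop_atTop
  have hpow : Tendsto (fun n : ℕ => (n : ℝ) ^ r) atTop atTop := (tendsto_pow_atTop (by omega)).comp hninf
  -- `(N + 1/2)/n^r → f`
  have l1 : Tendsto (fun n : ℕ => (((n - 2).choose r : ℝ) + 1 / 2) / (n : ℝ) ^ r) atTop (𝓝 f) := by
    have h1 := tendsto_choose 2 r
    have h2 : Tendsto (fun n : ℕ => (1 / 2 : ℝ) / (n : ℝ) ^ r) atTop (𝓝 0) :=
      tendsto_const_nhds.div_atTop hpow
    have h3 := h1.add h2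
    rw [add_zero] at h3
    refine h3.congr fun n => ?_
    rw [add_div]
  have l2 : Tendsto (fun n : ℕ => ((n - 4).choose r : ℝ) / (n : ℝ) ^ r) atTop (𝓝 f) :=
    tendsto_choose 4 r
  -- `m/n^r → f/2`
  have l3 : Tendsto (fun n : ℕ => (((n - 4).choose r / 2 : ℕ) : ℝ) / (n : ℝ) ^ r) atTop
      (𝓝 (f / 2)) := by
    have h1 : Tendsto (fun n : ℕ => ((n - 4).choose r : ℝ) / (n : ℝ) ^ r / 2 -
        1 / (n : ℝ) ^ r) atTop (𝓝 (f / 2 - 0)) :=
      (l2.div_const 2).sub (tendsto_const_nhds.div_atTop hpow)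
    rw [sub_zero] at h1
    refine tendsto_of_tendsto_of_tendsto_of_le_of_le' h1 (l2.div_const 2) ?_ ?_
    · filter_upwards [eventually_ge_atTop 1] with n hn
      have hn0 : (0 : ℝ) < (n : ℝ) ^ r := by
        have : (0 : ℝ) < n := by exact_mod_cast (show 0 < n by omega)
        positivity
      rw [div_right_comm, ← sub_div]
      apply div_le_div_of_nonneg_right _ hn0.le
      have h2 : (n - 4).choose r ≤ 2 * ((n - 4).choose r / 2) + 1 := by omega
      have h3 : ((n - 4).choose r : ℝ) ≤ 2 * (((n - 4).choose r / 2 : ℕ) : ℝ) + 1 := by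
        exact_mod_cast h2
      linarith
    · filter_upwards [eventually_ge_atTop 1] with n hn
      have hn0 : (0 : ℝ) < (n : ℝ) ^ r := by
        have : (0 : ℝ) < n := by exact_mod_cast (show 0 < n by omega)
        positivity
      rw [div_right_comm]
      apply div_le_div_of_nonneg_right _ hn0.le
      have h2 : 2 * ((n - 4).choose r / 2) ≤ (n - 4).choose r := by omega
      have h3 : 2 * (((n - 4).choose r / 2 : ℕ) : ℝ) ≤ ((n - 4).choose r : ℝ) := by
        exact_mod_cast h2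
      linarith
  have hpos : ∀ᶠ n : ℕ in atTop, (0 : ℝ) < (n : ℝ) ^ r := by
    filter_upwards [eventually_ge_atTop 1] with n hn
    have : (0 : ℝ) < n := by exact_mod_cast (show 0 < n by omega)
    positivity
  -- first term
  have t1 : Tendsto (fun n : ℕ => (((n - 2).choose r : ℝ) + 1 / 2) / ((n - 4).choose r : ℝ) - 1)
      atTop (𝓝 0) := by
    have h1 := (l1.div l2 hf.ne').sub_const 1
    rw [div_self hf.ne', sub_self] at h1
    refine h1.congr' ?_
    filter_upwards [hpos] with n hn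
    simp only [Pi.div_apply]
    rw [div_div_div_cancel_right₀ hn.ne']
  have t2 : Tendsto (fun n : ℕ => 16 * (n : ℝ) / ((n : ℝ) - 1) ^ 2 *
      √((((n - 2).choose r : ℝ) + 1 / 2) / (((n - 4).choose r / 2 : ℕ) : ℝ))) atTop (𝓝 0) := by
    have h1 : Tendsto (fun n : ℕ => (((n - 2).choose r : ℝ) + 1 / 2) /
        (((n - 4).choose r / 2 : ℕ) : ℝ)) atTop (𝓝 (f / (f / 2))) := by
      refine (l1.div l3 (by positivity)).congr' ?_
      filter_upwards [hpos] with n hn
      simp only [Pi.div_apply]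
      rw [div_div_div_cancel_right₀ hn.ne']
    have h2 := (Real.continuous_sqrt.tendsto _).comp h1
    have h3 : Tendsto (fun n : ℕ => 16 * (n : ℝ) / ((n : ℝ) - 1) ^ 2) atTop (𝓝 0) := by
      have h4 : Tendsto (fun n : ℕ => 64 / (n : ℝ)) atTop (𝓝 0) :=
        tendsto_const_div_atTop_nhds_zero_nat 64
      refine tendsto_of_tendsto_of_tendsto_of_le_of_le' tendsto_const_nhds h4 ?_ ?_
      · filter_upwards with n
        positivity
      · filter_upwards [eventually_ge_atTop 2] with n hn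
        have hnR : (2 : ℝ) ≤ n := by exact_mod_cast hn
        rw [div_le_div_iff₀ (by nlinarith) (by linarith)]
        nlinarith
    have h5 := h3.mul h2
    rw [zero_mul] at h5
    exact h5
  have t3 : Tendsto (fun n : ℕ => √(π * (((n - 2).choose r : ℝ) + 1 / 2) /
      ((n : ℝ) * (n - 1) / 2) ^ 2)) atTop (𝓝 0) := by
    have h0 : Tendsto (fun n : ℕ => (n : ℝ) ^ r / ((n : ℝ) * (n - 1) / 2) ^ 2) atTop (𝓝 0) := by
      have h4 : Tendsto (fun n : ℕ => 16 / (n : ℝ)) atTop (𝓝 0) :=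
        tendsto_const_div_atTop_nhds_zero_nat 16
      refine tendsto_of_tendsto_of_tendsto_of_le_of_le' tendsto_const_nhds h4 ?_ ?_
      · filter_upwards with n
        positivity
      · filter_upwards [eventually_ge_atTop 2] with n hn
        have hnR : (2 : ℝ) ≤ n := by exact_mod_cast hn
        have h5 : (n : ℝ) ^ r ≤ (n : ℝ) ^ 3 := pow_le_pow_right₀ (by linarith) hr
        have h6 : (n : ℝ) ^ 2 / 4 ≤ (n : ℝ) * (n - 1) / 2 := by nlinarith
        have h7 : ((n : ℝ) ^ 2 / 4) ^ 2 ≤ ((n : ℝ) * (n - 1) / 2) ^ 2 :=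
          pow_le_pow_left₀ (by positivity) h6 2
        have h8 : (0 : ℝ) < ((n : ℝ) * (n - 1) / 2) ^ 2 := by
          refine lt_of_lt_of_le ?_ h7
          have : (0 : ℝ) < n := by linarith
          positivity
        rw [div_le_div_iff₀ h8 (by linarith)]
        calc (n : ℝ) ^ r * n ≤ (n : ℝ) ^ 3 * n := mul_le_mul_of_nonneg_right h5 (by linarith)
          _ = 16 * ((n : ℝ) ^ 2 / 4) ^ 2 := by ring
          _ ≤ _ := mul_le_mul_of_nonneg_left h7 (by norm_num)
    have h1 : Tendsto (fun n : ℕ => π * (((n - 2).choose r : ℝ) + 1 / 2) /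
      ((n : ℝ) * (n - 1) / 2) ^ 2) atTop (𝓝 0) := by
      have h2 := (l1.const_mul π).mul h0
      rw [mul_zero] at h2
      refine h2.congr' ?_
      filter_upwards [hpos] with n hn
      field_simp
    have h3 := (Real.continuous_sqrt.tendsto _).comp h1
    rw [Real.sqrt_zero] at h3
    exact h3
  have hsum := (t1.add t2).add t3
  rw [add_zero, add_zero] at hsum
  -- `m ≥ 1` eventually
  have hm : ∀ᶠ n : ℕ in atTop, 1 ≤ (n - 4).choose r / 2 := by
    have h1 : ∀ᶠ n : ℕ in atTop, 0 < (((n - 4).choose r / 2 : ℕ) : ℝ) / (n : ℝ) ^ r :=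
      l3.eventually (lt_mem_nhds (by positivity))
    filter_upwards [h1] with n h1
    by_contra hcon
    have : (n - 4).choose r / 2 = 0 := by omega
    rw [this] at h1
    simp at h1
  refine tendsto_of_tendsto_of_tendsto_of_le_of_le' tendsto_const_nhds hsum ?_ ?_
  · filter_upwards with n
    exact p0_nonneg n (r + 1)
  · filter_upwards [hm, eventually_ge_atTop 2] with n hm hn
    exact p0_le hn (by omega) hm

end Pool.Agent.N439.RH
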