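import Pool.Agent.N439.RH.Third

/-!
For `k = 5`, a random `5`-uniform hypergraph is irregular with probability bounded below.
-/

set_option autoImplicit false
set_option linter.unusedSectionVars false

namespace Pool.Agent.N439.RH

open Finset Real Filter Topology

theorem tendsto_cc {M : ℕ → ℕ} {f : ℝ} (hf : 0 < f)
    (hM : Tendsto (fun n : ℕ => (M n : ℝ) / (n : ℝ) ^ 4) atTop (𝓝 f)) :
    Tendsto (fun n : ℕ => (n : ℝ) ^ 2 * cc (M n)) atTop (𝓝 (√(1 / (π * f)))) := by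
  have hpi := Real.pi_pos
  have hninf : Tendsto (fun n : ℕ => (n : ℝ)) atTop atTop := tendsto_natCast_atTop_atTop
  have hpow : Tendsto (fun n : ℕ => (n : ℝ) ^ 4) atTop atTop :=
    (tendsto_pow_atTop (by norm_num)).comp hninf
  have hn0 : ∀ᶠ n : ℕ in atTop, (0 : ℝ) < n := by
    filter_upwards [eventually_ge_atTop 1] with n hn
    exact_mod_cast (show 0 < n by omega)
  have hM1 : ∀ᶠ n : ℕ in atTop, 1 ≤ M n := by
    filter_upwards [hM.eventually (lt_mem_nhds hf)] with n h1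
    by_contra hcon
    have : M n = 0 := by omega
    rw [this] at h1
    simp at h1
  have l1 : Tendsto (fun n : ℕ => 1 / (π * ((M n : ℝ) / (n : ℝ) ^ 4))) atTop (𝓝 (1 / (π * f))) := by
    have h := (hM.const_mul π).inv₀ (by positivity)
    simpa [one_div] using h
  have l2 : Tendsto (fun n : ℕ => 1 / (π * ((M n : ℝ) / (n : ℝ) ^ 4 + 1 / 2 / (n : ℝ) ^ 4))) atTop
      (𝓝 (1 / (π * f))) := by
    have h2 : Tendsto (fun n : ℕ => (1 / 2 : ℝ) / (n : ℝ) ^ 4) atTop (𝓝 0) :=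
      tendsto_const_nhds.div_atTop hpow
    have h3 := hM.add h2
    rw [add_zero] at h3
    have h := (h3.const_mul π).inv₀ (by positivity)
    simpa [one_div] using h
  have l3 : Tendsto (fun n : ℕ => ((n : ℝ) ^ 2 * cc (M n)) ^ 2) atTop (𝓝 (1 / (π * f))) := by
    refine tendsto_of_tendsto_of_tendsto_of_le_of_le' l2 l1 ?_ ?_
    · filter_upwards [hn0] with n hn
      have h := cc_sq_lower (M n)
      calc 1 / (π * ((M n : ℝ) / (n : ℝ) ^ 4 + 1 / 2 / (n : ℝ) ^ 4))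
          = (n : ℝ) ^ 4 * (1 / (π * (M n + 1 / 2))) := by field_simp
        _ ≤ (n : ℝ) ^ 4 * cc (M n) ^ 2 := mul_le_mul_of_nonneg_left h (by positivity)
        _ = _ := by ring
    · filter_upwards [hn0, hM1] with n hn hm
      have h := cc_sq_upper (M n) hm
      have hmR : (0 : ℝ) < M n := by exact_mod_cast hm
      calc ((n : ℝ) ^ 2 * cc (M n)) ^ 2 = (n : ℝ) ^ 4 * cc (M n) ^ 2 := by ring
        _ ≤ (n : ℝ) ^ 4 * (1 / (π * M n)) := mul_le_mul_of_nonneg_left h (by positivity)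
        _ = _ := by field_simp
  have l4 := (Real.continuous_sqrt.tendsto _).comp l3
  refine l4.congr fun n => ?_
  simp only [Function.comp]
  exact Real.sqrt_sq (mul_nonneg (by positivity) (cc_nonneg _))

theorem p0_five : ∃ c : ℝ, 0 < c ∧ ∃ N : ℕ, ∀ n : ℕ, N ≤ n → c ≤ p0 n 5 := by
  have hpi := Real.pi_pos
  have hf : (0 : ℝ) < 1 / ((4 : ℕ).factorial : ℝ) := by positivity
  set f : ℝ := 1 / ((4 : ℕ).factorial : ℝ) with hfdef
  have hfv : f = 1 / 24 := by rw [hfdef]; norm_num [Nat.factorial]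
  set κ : ℝ := √(1 / (π * f)) with hκ
  set v0 : ℝ := √(1 / (π * (f / 2))) with hv0
  have hninf : Tendsto (fun n : ℕ => (n : ℝ)) atTop atTop := tendsto_natCast_atTop_atTop
  have hpow : Tendsto (fun n : ℕ => (n : ℝ) ^ 4) atTop atTop :=
    (tendsto_pow_atTop (by norm_num)).comp hninf
  have hinv : Tendsto (fun n : ℕ => 1 / (n : ℝ)) atTop (𝓝 0) := tendsto_one_div_atTop_nhds_zero_nat
  have hn0 : ∀ᶠ n : ℕ in atTop, (0 : ℝ) < n := by
    filter_upwards [eventually_ge_atTop 1] with n hn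
    exact_mod_cast (show 0 < n by omega)
  have u2 := tendsto_cc hf (tendsto_choose 2 4)
  have u4 := tendsto_cc hf (tendsto_choose 4 4)
  have u6 := tendsto_cc hf (tendsto_choose 6 4)
  have l2 := tendsto_choose 2 4
  have l4 := tendsto_choose 4 4
  have l6 := tendsto_choose 6 4
  -- `m`
  have lm : Tendsto (fun n : ℕ => (((n - 6).choose 4 / 2 : ℕ) : ℝ) / (n : ℝ) ^ 4) atTop
      (𝓝 (f / 2)) := by
    have h1 : Tendsto (fun n : ℕ => ((n - 6).choose 4 : ℝ) / (n : ℝ) ^ 4 / 2 -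
        1 / (n : ℝ) ^ 4) atTop (𝓝 (f / 2 - 0)) :=
      (l6.div_const 2).sub (tendsto_const_nhds.div_atTop hpow)
    rw [sub_zero] at h1
    refine tendsto_of_tendsto_of_tendsto_of_le_of_le' h1 (l6.div_const 2) ?_ ?_
    · filter_upwards [hn0] with n hn
      have hn0 : (0 : ℝ) < (n : ℝ) ^ 4 := by positivity
      rw [div_right_comm, ← sub_div]
      apply div_le_div_of_nonneg_right _ hn0.le
      have h2 : (n - 6).choose 4 ≤ 2 * ((n - 6).choose 4 / 2) + 1 := by omega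
      have h3 : ((n - 6).choose 4 : ℝ) ≤ 2 * (((n - 6).choose 4 / 2 : ℕ) : ℝ) + 1 := by
        exact_mod_cast h2
      linarith
    · filter_upwards [hn0] with n hn
      have hn0 : (0 : ℝ) < (n : ℝ) ^ 4 := by positivity
      rw [div_right_comm]
      apply div_le_div_of_nonneg_right _ hn0.le
      have h2 : 2 * ((n - 6).choose 4 / 2) ≤ (n - 6).choose 4 := by omega
      have h3 : 2 * (((n - 6).choose 4 / 2 : ℕ) : ℝ) ≤ ((n - 6).choose 4 : ℝ) := by
        exact_mod_cast h2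
      linarith
  have um := tendsto_cc (half_pos hf) lm
  -- `a / n^2 → 1/2`
  have la : Tendsto (fun n : ℕ => ((Pairs n).card : ℝ) / (n : ℝ) ^ 2) atTop (𝓝 (1 / 2)) := by
    have h1 : Tendsto (fun n : ℕ => (1 / 2 : ℝ) - 1 / 2 * (1 / (n : ℝ))) atTop
        (𝓝 (1 / 2 - 1 / 2 * 0)) := tendsto_const_nhds.sub (hinv.const_mul _)
    rw [mul_zero, sub_zero] at h1
    refine h1.congr' ?_
    filter_upwards [hn0] with n hn
    have h2 := card_Pairs_two n
    have h3 : ((Pairs n).card : ℝ) = n * (n - 1) / 2 := by linarith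
    rw [h3]
    field_simp
  -- `(N - N')/(2 N') → 0`
  have lr : Tendsto (fun n : ℕ => ((((n - 2).choose 4 : ℕ) : ℝ) - ((n - 4).choose 4 : ℕ)) / 2 /
      ((n - 4).choose 4 : ℕ)) atTop (𝓝 0) := by
    have h1 := ((l2.sub l4).div_const 2).div l4 hf.ne'
    rw [sub_self, zero_div, zero_div] at h1
    refine h1.congr' ?_
    filter_upwards [hn0] with n hn
    have hn0 : (n : ℝ) ^ 4 ≠ 0 := by positivity
    simp only [Pi.div_apply]
    rw [← sub_div, div_right_comm, div_div_div_cancel_right₀ hn0]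
    try ring
  -- `n^4 L → κ^2`
  set L : ℕ → ℝ := fun n => cc ((n - 4).choose 4) * (cc ((n - 2).choose 4) -
      cc ((n - 4).choose 4) *
      ((((n - 2).choose 4 : ℕ) - ((n - 4).choose 4 : ℕ) : ℝ) / 2) / ((n - 4).choose 4 : ℕ)) with hLdef
  have lL : Tendsto (fun n : ℕ => (n : ℝ) ^ 4 * L n) atTop (𝓝 (κ * (κ - κ * 0))) := by
    have h1 := u4.mul (u2.sub (u4.mul lr))
    refine h1.congr fun n => ?_
    simp only [hLdef]
    ring
  rw [mul_zero, sub_zero] at lL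
  have hκpos : 0 < κ := by
    rw [hκ]; exact Real.sqrt_pos.2 (by positivity)
  have hLpos : ∀ᶠ n : ℕ in atTop, 0 ≤ L n := by
    filter_upwards [lL.eventually (lt_mem_nhds (mul_pos hκpos hκpos)), hn0] with n h1 hn
    by_contra hcon
    push Not at hcon
    have : (n : ℝ) ^ 4 * L n ≤ 0 := mul_nonpos_of_nonneg_of_nonpos (by positivity) hcon.le
    linarith
  -- the whole bound
  set B : ℕ → ℝ := fun n => 6 - 6 * (((Pairs n).card : ℝ) * cc ((n - 2).choose 4)) +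
      3 * ((((Pairs n).card : ℝ) ^ 2 - 4 * (n : ℝ) ^ 3) * L n) -
      (((Pairs n).card : ℝ) ^ 3 * (cc ((n - 6).choose 4) *
      (cc ((n - 4).choose 4) * cc ((n - 2).choose 4))) +
      12 * (n : ℝ) ^ 5 * (cc ((n - 6).choose 4 / 2) * (cc ((n - 6).choose 4 / 2) *
        cc ((n - 2).choose 4))) +
      64 * (n : ℝ) ^ 3 * (cc ((n - 6).choose 4 / 2) * cc ((n - 2).choose 4))) with hB
  have lB : Tendsto B atTop (𝓝 (6 - 6 * (1 / 2 * κ) + 3 * (((1 / 2) ^ 2 - 4 * 0) * (κ * κ)) -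
      ((1 / 2) ^ 3 * (κ * (κ * κ)) + 12 * (0 * (v0 * (v0 * κ))) + 64 * (0 * (v0 * κ))))) := by
    have h1 := (((la.mul u2).const_mul 6).const_sub 6).add
      ((((la.pow 2).sub (hinv.const_mul 4)).mul lL).const_mul 3)
    have h2 := (((la.pow 3).mul (u6.mul (u4.mul u2))).add
      ((hinv.mul (um.mul (um.mul u2))).const_mul 12)).add
      ((hinv.mul (um.mul u2)).const_mul 64)
    have h3 := h1.sub h2
    refine h3.congr' ?_
    filter_upwards [hn0] with n hn
    simp only [hB]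
    field_simp
  have hlim : 0 < 6 - 6 * (1 / 2 * κ) + 3 * (((1 / 2) ^ 2 - 4 * 0) * (κ * κ)) -
      ((1 / 2) ^ 3 * (κ * (κ * κ)) + 12 * (0 * (v0 * (v0 * κ))) + 64 * (0 * (v0 * κ))) := by
    have hk2 : κ ≤ 14 / 5 := by
      rw [hκ, Real.sqrt_le_left (by norm_num)]
      rw [hfv, div_le_iff₀ (by positivity)]
      have := Real.pi_gt_d2
      nlinarith
    have e : 6 - 6 * (1 / 2 * κ) + 3 * (((1 / 2) ^ 2 - 4 * 0) * (κ * κ)) -
      ((1 / 2) ^ 3 * (κ * (κ * κ)) + 12 * (0 * (v0 * (v0 * κ))) + 64 * (0 * (v0 * κ))) =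
      6 - 3 * κ + 3 / 4 * κ ^ 2 - κ ^ 3 / 8 := by ring
    rw [e]
    -- decreasing in κ
    nlinarith [sq_nonneg (κ - 2), sq_nonneg κ, mul_nonneg (sub_nonneg.2 hk2) (sq_nonneg (κ - 2)),
      mul_nonneg (sub_nonneg.2 hk2) hκpos.le]
  set ℓ : ℝ := 6 - 6 * (1 / 2 * κ) + 3 * (((1 / 2) ^ 2 - 4 * 0) * (κ * κ)) -
      ((1 / 2) ^ 3 * (κ * (κ * κ)) + 12 * (0 * (v0 * (v0 * κ))) + 64 * (0 * (v0 * κ))) with hℓ
  have hev : ∀ᶠ n : ℕ in atTop, ℓ / 2 < B n := lB.eventually (lt_mem_nhds (by linarith))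
  have hm1 : ∀ᶠ n : ℕ in atTop, 1 ≤ (n - 4).choose 4 := by
    filter_upwards [eventually_ge_atTop 8] with n hn
    exact Nat.choose_pos (by omega)
  obtain ⟨N, hN⟩ := eventually_atTop.1 (hev.and (hLpos.and hm1))
  refine ⟨ℓ / 12, by positivity, N, fun n hn => ?_⟩
  obtain ⟨h1, h2, h3⟩ := hN n hn
  have hb := bonf (n := n) (k := 5) (by norm_num) (m := (n - 6).choose 4 / 2)
    (by have : (5 : ℕ) - 1 = 4 := rfl
        rw [this]; omega) h3 h2 (le_refl _)
  have h4 : B n ≤ 6 * p0 n 5 := hb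
  linarith

end Pool.Agent.N439.RH
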