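import Pool.Agent.N439.RH.CC

/-!
Second moment of the number of coincident pairs.
-/

set_option autoImplicit false
set_option linter.unusedSectionVars false

namespace Pool.Agent.N439.RH

open Finset Real

variable {n : ℕ}

/-- the pairs `u < v` -/
def Pairs (n : ℕ) : Finset (Fin n × Fin n) := univ.filter (fun p => p.1 < p.2)

theorem mem_Pairs {p : Fin n × Fin n} : p ∈ Pairs n ↔ p.1 < p.2 := by simp [Pairs]

theorem card_Pairs_two (n : ℕ) : 2 * ((Pairs n).card : ℝ) = n * (n - 1) := by
  have h1 : (univ : Finset (Fin n × Fin n)).card = n * n := by simp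
  have h2 : (Pairs n).card = ((univ : Finset (Fin n × Fin n)).filter (fun p => p.2 < p.1)).card := by
    apply card_nbij' Prod.swap Prod.swap
    · intro p hp
      rw [mem_coe, mem_Pairs] at hp
      simpa using hp
    · intro p hp
      rw [mem_coe, mem_filter] at hp
      rw [mem_coe, mem_Pairs]
      exact hp.2
    · intro p _; simp
    · intro p _; simp
  have h3 : ((univ : Finset (Fin n × Fin n)).filter (fun p => p.1 = p.2)).card = n := by
    have : ((univ : Finset (Fin n × Fin n)).filter (fun p => p.1 = p.2)).card =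
        (univ : Finset (Fin n)).card := by
      symm
      apply card_nbij' (fun x => (x, x)) Prod.fst
      · intro x _; simp
      · intro x _; simp
      · intro x _; simp
      · rintro ⟨a, b⟩ h
        simp only [coe_filter, mem_univ, true_and, Set.mem_ofPred_eq] at h
        simp [h]
    rw [this, card_univ, Fintype.card_fin]
  have h4 : (univ : Finset (Fin n × Fin n)) = Pairs n ∪
      ((univ : Finset (Fin n × Fin n)).filter (fun p => p.2 < p.1) ∪
      (univ : Finset (Fin n × Fin n)).filter (fun p => p.1 = p.2)) := by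
    ext p
    simp only [mem_univ, mem_union, mem_Pairs, mem_filter, true_and, true_iff]
    rcases lt_trichotomy p.1 p.2 with h | h | h
    · exact Or.inl h
    · exact Or.inr (Or.inr h)
    · exact Or.inr (Or.inl h)
  have h5 : n * n = (Pairs n).card + ((Pairs n).card + n) := by
    rw [← h1]
    conv_lhs => rw [h4]
    rw [card_union_of_disjoint, card_union_of_disjoint, ← h2, h3]
    · refine disjoint_left.2 fun p hp hp' => ?_
      rw [mem_filter] at hp hp'
      exact absurd hp'.2 hp.2.ne'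
    · refine disjoint_left.2 fun p hp hp' => ?_
      rw [mem_Pairs] at hp
      rcases mem_union.1 hp' with h | h
      · rw [mem_filter] at h; exact absurd h.2 (not_lt.2 hp.le)
      · rw [mem_filter] at h; exact absurd h.2 hp.ne
  have h6 : ((n * n : ℕ) : ℝ) = (((Pairs n).card + ((Pairs n).card + n) : ℕ) : ℝ) := by rw [← h5]
  push_cast at h6
  linarith

/-- the two pairs have a common vertex -/
def Sh (p q : Fin n × Fin n) : Prop := p.1 = q.1 ∨ p.1 = q.2 ∨ p.2 = q.1 ∨ p.2 = q.2

instance (p q : Fin n × Fin n) : Decidable (Sh p q) := by unfold Sh; infer_instance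

theorem card_Sh (p : Fin n × Fin n) :
    (((univ : Finset (Fin n × Fin n)).filter (fun q => Sh p q)).card : ℝ) ≤ 4 * n := by
  have hsub : (univ : Finset (Fin n × Fin n)).filter (fun q => Sh p q) ⊆
      (({p.1} ×ˢ univ) ∪ (univ ×ˢ {p.1})) ∪ (({p.2} ×ˢ univ) ∪ (univ ×ˢ {p.2})) := by
    intro q hq
    rw [mem_filter] at hq
    simp only [mem_union, mem_product, mem_singleton, mem_univ, and_true, true_and]
    rcases hq.2 with h | h | h | h
    · exact Or.inl (Or.inl h.symm)
    · exact Or.inl (Or.inr h.symm)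
    · exact Or.inr (Or.inl h.symm)
    · exact Or.inr (Or.inr h.symm)
  have h1 := card_le_card hsub
  have h2 := card_union_le (({p.1} ×ˢ univ) ∪ (univ ×ˢ {p.1})) (({p.2} ×ˢ univ) ∪ (univ ×ˢ {p.2}))
  have h3 := card_union_le ({p.1} ×ˢ (univ : Finset (Fin n))) ((univ : Finset (Fin n)) ×ˢ {p.1})
  have h4 := card_union_le ({p.2} ×ˢ (univ : Finset (Fin n))) ((univ : Finset (Fin n)) ×ˢ {p.2})
  simp only [card_product, card_singleton, card_univ, Fintype.card_fin] at h3 h4
  have h5 : ((univ : Finset (Fin n × Fin n)).filter (fun q => Sh p q)).card ≤ 4 * n := by omega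
  exact_mod_cast h5

/-- `∑_p ∑_q [p, q have a common vertex]` -/
theorem sum_Sh (n : ℕ) : ∑ p ∈ Pairs n, ∑ q ∈ Pairs n, (if Sh p q then (1 : ℝ) else 0) ≤
    4 * (n : ℝ) ^ 3 := by
  have h1 : ∀ p ∈ Pairs n, ∑ q ∈ Pairs n, (if Sh p q then (1 : ℝ) else 0) ≤ 4 * n := by
    intro p _
    refine le_trans ?_ (card_Sh p)
    rw [← sum_filter, sum_const, nsmul_eq_mul, mul_one]
    exact_mod_cast card_le_card (filter_subset_filter _ (subset_univ _))
  refine (sum_le_sum h1).trans ?_
  rw [sum_const, nsmul_eq_mul]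
  have h2 : ((Pairs n).card : ℝ) ≤ (n : ℝ) ^ 2 := by
    have := card_le_card (subset_univ (Pairs n))
    rw [card_univ, Fintype.card_prod, Fintype.card_fin] at this
    rw [pow_two]
    exact_mod_cast this
  have hn : (0 : ℝ) ≤ 4 * n := by positivity
  calc ((Pairs n).card : ℝ) * (4 * n) ≤ (n : ℝ) ^ 2 * (4 * n) := mul_le_mul_of_nonneg_right h2 hn
    _ = _ := by ring

/-- `[p is coincident]` -/
noncomputable def I (p : Fin n × Fin n) (H : Finset (Finset (Fin n))) : ℝ := ind (A p.1 p.2 H)

theorem I_nonneg (p : Fin n × Fin n) (H : Finset (Finset (Fin n))) : 0 ≤ I p H := ind_nonneg _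

theorem I_sq (p : Fin n × Fin n) (H : Finset (Finset (Fin n))) : I p H * I p H = I p H := by
  unfold I
  by_cases h : A p.1 p.2 H
  · rw [ind_true h]; norm_num
  · rw [ind_false h]; norm_num

theorem I_dep {p : Fin n × Fin n} {F : Finset (Fin n)} (h1 : p.1 ∈ F) (h2 : p.2 ∈ F) :
    Dep F (I p) := Dep.A h1 h2

theorem ex_I {k : ℕ} (hk : 1 ≤ k) {p : Fin n × Fin n} (hp : p ∈ Pairs n) :
    ex (Edges n k) (I p) = cc ((n - 2).choose (k - 1)) :=
  exact_pair hk (mem_Pairs.1 hp).ne

/-- adding a pair with a new vertex -/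
theorem add_pair {k : ℕ} (hk : 1 ≤ k) {F : Finset (Fin n)} {q : Fin n × Fin n} (hq : q ∈ Pairs n)
    (hnew : q.1 ∉ F ∨ q.2 ∉ F) {g : Finset (Finset (Fin n)) → ℝ} (hg : Dep F g)
    (hg0 : ∀ H, 0 ≤ g H) {m : ℕ} (hm : 2 * m ≤ (n - 2 - F.card).choose (k - 1)) :
    ex (Edges n k) (fun H => g H * I q H) ≤ cc m * ex (Edges n k) g := by
  have hne : q.1 ≠ q.2 := (mem_Pairs.1 hq).ne
  have gen : ∀ s t : Fin n, s ≠ t → t ∉ F →
      ex (Edges n k) (fun H => g H * ind (A s t H)) ≤ cc m * ex (Edges n k) g := by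
    intro s t hst ht
    apply leafF hk (F := insert s F) (by simp [ht, hst.symm]) (by simp) _ hg0
    · refine hm.trans ?_
      apply Nat.choose_le_choose
      have := card_insert_le s F
      omega
    · intro H S hS
      apply hg
      intro e he
      exact disjoint_of_subset_right (subset_insert _ _) (hS e he)
  rcases hnew with h | h
  · have := gen q.2 q.1 hne.symm h
    refine le_trans (le_of_eq ?_) this
    congr 1
    funext H
    unfold I
    congr 2
    exact propext A_symm
  · exact gen q.1 q.2 hne h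

theorem pair_bound {k : ℕ} (hk : 1 ≤ k) {p q : Fin n × Fin n} (hp : p ∈ Pairs n)
    (hq : q ∈ Pairs n) (hpq : p ≠ q) {m : ℕ} (hm : 2 * m ≤ (n - 4).choose (k - 1)) :
    ex (Edges n k) (fun H => I p H * I q H) ≤
      cc ((n - 4).choose (k - 1)) * cc ((n - 2).choose (k - 1)) +
        (if Sh p q then 1 else 0) * (cc m * cc ((n - 2).choose (k - 1))) := by
  have hne : p.1 ≠ p.2 := (mem_Pairs.1 hp).ne
  have hFc : ({p.1, p.2} : Finset (Fin n)).card = 2 := card_pair hne
  have hdep : Dep ({p.1, p.2} : Finset (Fin n)) (I p) := I_dep (by simp) (by simp)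
  have hc := cc_nonneg ((n - 4).choose (k - 1))
  have hc2 := cc_nonneg ((n - 2).choose (k - 1))
  have hc3 := cc_nonneg m
  by_cases hS : Sh p q
  · rw [if_pos hS]
    have hnew : q.1 ∉ ({p.1, p.2} : Finset (Fin n)) ∨ q.2 ∉ ({p.1, p.2} : Finset (Fin n)) := by
      by_contra hcon
      push Not at hcon
      simp only [mem_insert, mem_singleton] at hcon
      have h1 := mem_Pairs.1 hp
      have h2 := mem_Pairs.1 hq
      apply hpq
      rcases hcon with ⟨h3 | h3, h4 | h4⟩
      · rw [h3, h4] at h2; exact absurd h2 (lt_irrefl _)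
      · exact Prod.ext h3.symm h4.symm
      · rw [h3, h4] at h2; exact absurd h1 (not_lt.2 h2.le)
      · rw [h3, h4] at h2; exact absurd h2 (lt_irrefl _)
    have := add_pair hk hq hnew hdep (fun H => I_nonneg p H) (m := m) (by rw [hFc]; exact hm)
    rw [ex_I hk hp] at this
    nlinarith [mul_nonneg hc hc2]
  · rw [if_neg hS, zero_mul, add_zero]
    unfold Sh at hS
    push Not at hS
    have := upperF hk (F := {p.1, p.2}) (mem_Pairs.1 hq).ne
      (by simp [hS.1.symm, hS.2.2.1.symm]) (by simp [hS.2.1.symm, hS.2.2.2.symm]) hdep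
      (fun H => I_nonneg p H)
    rw [ex_I hk hp, hFc] at this
    exact this

/-- second moment bound -/
theorem second_moment {k : ℕ} (hk : 1 ≤ k) {m : ℕ} (hm : 2 * m ≤ (n - 4).choose (k - 1)) :
    ex (Edges n k) (fun H => ind (∀ p ∈ Pairs n, ¬ A p.1 p.2 H)) *
      (((Pairs n).card : ℝ) * cc ((n - 2).choose (k - 1))) ^ 2 ≤
    ((Pairs n).card : ℝ) ^ 2 * (cc ((n - 4).choose (k - 1)) * cc ((n - 2).choose (k - 1))) +
      4 * (n : ℝ) ^ 3 * (cc m * cc ((n - 2).choose (k - 1))) +
      ((Pairs n).card : ℝ) * cc ((n - 2).choose (k - 1)) -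
      (((Pairs n).card : ℝ) * cc ((n - 2).choose (k - 1))) ^ 2 := by
  set a : ℝ := ((Pairs n).card : ℝ) with ha
  set c : ℝ := cc ((n - 2).choose (k - 1)) with hc
  set c' : ℝ := cc ((n - 4).choose (k - 1)) with hc'
  set Z : Finset (Finset (Fin n)) → ℝ := fun H => ∑ p ∈ Pairs n, I p H with hZ
  have hEZ : ex (Edges n k) Z = a * c := by
    rw [hZ, ex_sum, sum_congr rfl (fun p hp => ex_I hk hp), sum_const, nsmul_eq_mul]
  have hEZ2 : ex (Edges n k) (fun H => Z H * Z H) ≤ a ^ 2 * (c' * c) + 4 * (n : ℝ) ^ 3 * (cc m * c)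
      + a * c := by
    have e1 : ex (Edges n k) (fun H => Z H * Z H) =
        ∑ p ∈ Pairs n, ∑ q ∈ Pairs n, ex (Edges n k) (fun H => I p H * I q H) := by
      rw [← sum_congr rfl (fun p _ => ex_sum (Pairs n) (Edges n k) (fun q H => I p H * I q H)),
        ← ex_sum]
      congr 1
      funext H
      rw [hZ, sum_mul_sum]
    rw [e1]
    have e2 : ∀ p ∈ Pairs n, ∀ q ∈ Pairs n, ex (Edges n k) (fun H => I p H * I q H) ≤
        c' * c + (if Sh p q then 1 else 0) * (cc m * c) + (if p = q then c else 0) := by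
      intro p hp q hq
      by_cases hpq : p = q
      · subst hpq
        rw [if_pos rfl]
        have : ex (Edges n k) (fun H => I p H * I p H) = c := by
          rw [hc, ← ex_I hk hp]
          congr 1
          funext H
          exact I_sq p H
        rw [this]
        have h1 : 0 ≤ c' * c := mul_nonneg (cc_nonneg _) (cc_nonneg _)
        have h2 : 0 ≤ (if Sh p p then (1 : ℝ) else 0) * (cc m * c) := by
          apply mul_nonneg
          · split_ifs <;> norm_num
          · exact mul_nonneg (cc_nonneg _) (cc_nonneg _)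
        linarith
      · rw [if_neg hpq, add_zero]
        exact pair_bound hk hp hq hpq hm
    refine (sum_le_sum fun p hp => sum_le_sum fun q hq => e2 p hp q hq).trans ?_
    simp_rw [sum_add_distrib]
    have e3 : ∑ p ∈ Pairs n, ∑ q ∈ Pairs n, c' * c = a ^ 2 * (c' * c) := by
      simp_rw [sum_const, nsmul_eq_mul]
      rw [ha]; ring
    have e4 : ∑ p ∈ Pairs n, ∑ q ∈ Pairs n, (if Sh p q then (1 : ℝ) else 0) * (cc m * c) ≤
        4 * (n : ℝ) ^ 3 * (cc m * c) := by
      simp_rw [← sum_mul]
      exact mul_le_mul_of_nonneg_right (sum_Sh n) (mul_nonneg (cc_nonneg _) (cc_nonneg _))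
    have e5 : ∑ p ∈ Pairs n, ∑ q ∈ Pairs n, (if p = q then c else 0) = a * c := by
      rw [sum_congr rfl (g := fun _ => c) (fun p hp => by rw [sum_ite_eq, if_pos hp]), sum_const,
        nsmul_eq_mul]
    rw [e3, e5]
    linarith
  have hvar : ex (Edges n k) (fun H => ind (∀ p ∈ Pairs n, ¬ A p.1 p.2 H) * (a * c) ^ 2) ≤
      ex (Edges n k) (fun H => Z H * Z H - (2 * (a * c) * Z H - (a * c) ^ 2)) := by
    apply ex_mono
    intro H _
    by_cases h : ∀ p ∈ Pairs n, ¬ A p.1 p.2 H
    · rw [ind_true h]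
      have : Z H = 0 := by
        rw [hZ]
        apply sum_eq_zero
        intro p hp
        exact ind_false (h p hp)
      rw [this]
      ring_nf
      exact le_refl _
    · rw [ind_false h, zero_mul]
      nlinarith [sq_nonneg (Z H - a * c)]
  have e6 : ex (Edges n k) (fun H => Z H * Z H - (2 * (a * c) * Z H - (a * c) ^ 2)) =
      ex (Edges n k) (fun H => Z H * Z H) - (a * c) ^ 2 := by
    rw [ex_sub, ex_sub, ex_const_mul, hEZ, ex_const]
    ring
  have e7 : ex (Edges n k) (fun H => ind (∀ p ∈ Pairs n, ¬ A p.1 p.2 H) * (a * c) ^ 2) =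
      ex (Edges n k) (fun H => ind (∀ p ∈ Pairs n, ¬ A p.1 p.2 H)) * (a * c) ^ 2 := by
    rw [mul_comm (ex _ _), ← ex_const_mul]
    congr 1
    funext H
    ring
  rw [e6, e7] at hvar
  linarith

end Pool.Agent.N439.RH
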