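import Pool.Agent.N439.RH.Main34

/-!
Third moment of the number of coincident pairs.
-/

set_option autoImplicit false
set_option linter.unusedSectionVars false

namespace Pool.Agent.N439.RH

open Finset Real

variable {n : ℕ}

theorem I_le_one (p : Fin n × Fin n) (H : Finset (Finset (Fin n))) : I p H ≤ 1 := ind_le_one _

theorem pair_eq_of {p q : Fin n × Fin n} (hp : p ∈ Pairs n) (hq : q ∈ Pairs n)
    (h1 : p.1 = q.1 ∨ p.1 = q.2) (h2 : p.2 = q.1 ∨ p.2 = q.2) : p = q := by
  have h3 := mem_Pairs.1 hp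
  have h4 := mem_Pairs.1 hq
  rcases h1 with h1 | h1 <;> rcases h2 with h2 | h2
  · rw [h1, h2] at h3; exact absurd h3 (lt_irrefl _)
  · exact Prod.ext h1 h2
  · rw [h1, h2] at h3; exact absurd h4 (not_lt.2 h3.le)
  · rw [h1, h2] at h3; exact absurd h3 (lt_irrefl _)

/-- two distinct pairs -/
theorem two_any {k : ℕ} (hk : 1 ≤ k) {p q : Fin n × Fin n} (hp : p ∈ Pairs n)
    (hq : q ∈ Pairs n) (hpq : p ≠ q) {m : ℕ} (hm : 2 * m ≤ (n - 4).choose (k - 1)) :
    ex (Edges n k) (fun H => I p H * I q H) ≤ cc m * cc ((n - 2).choose (k - 1)) := by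
  have hne : p.1 ≠ p.2 := (mem_Pairs.1 hp).ne
  have hFc : ({p.1, p.2} : Finset (Fin n)).card = 2 := card_pair hne
  have hdep : Dep ({p.1, p.2} : Finset (Fin n)) (I p) := I_dep (by simp) (by simp)
  have hnew : q.1 ∉ ({p.1, p.2} : Finset (Fin n)) ∨ q.2 ∉ ({p.1, p.2} : Finset (Fin n)) := by
    by_contra hcon
    push Not at hcon
    simp only [mem_insert, mem_singleton] at hcon
    exact hpq (pair_eq_of hq hp hcon.1 hcon.2).symm
  have := add_pair hk hq hnew hdep (fun H => I_nonneg p H) (m := m) (by rw [hFc]; exact hm)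
  rw [ex_I hk hp] at this
  exact this

/-- two disjoint pairs -/
theorem two_disjoint {k : ℕ} (hk : 1 ≤ k) {p q : Fin n × Fin n} (hp : p ∈ Pairs n)
    (hq : q ∈ Pairs n) (hS : ¬ Sh p q) :
    ex (Edges n k) (fun H => I p H * I q H) ≤
      cc ((n - 4).choose (k - 1)) * cc ((n - 2).choose (k - 1)) := by
  have hne : p.1 ≠ p.2 := (mem_Pairs.1 hp).ne
  have hFc : ({p.1, p.2} : Finset (Fin n)).card = 2 := card_pair hne
  have hdep : Dep ({p.1, p.2} : Finset (Fin n)) (I p) := I_dep (by simp) (by simp)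
  unfold Sh at hS
  push Not at hS
  have := upperF hk (F := {p.1, p.2}) (mem_Pairs.1 hq).ne
    (by simp [hS.1.symm, hS.2.2.1.symm]) (by simp [hS.2.1.symm, hS.2.2.2.symm]) hdep
    (fun H => I_nonneg p H)
  rw [ex_I hk hp, hFc] at this
  exact this

/-- lower bound for two disjoint pairs -/
theorem two_lower {k : ℕ} (hk : 1 ≤ k) {p q : Fin n × Fin n} (hp : p ∈ Pairs n)
    (hq : q ∈ Pairs n) (hS : ¬ Sh p q) (hm : 1 ≤ (n - 4).choose (k - 1)) :
    cc ((n - 4).choose (k - 1)) * (cc ((n - 2).choose (k - 1)) - cc ((n - 4).choose (k - 1)) *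
      ((((n - 2).choose (k - 1) : ℕ) - ((n - 4).choose (k - 1) : ℕ) : ℝ) / 2) /
        ((n - 4).choose (k - 1) : ℕ)) ≤
      ex (Edges n k) (fun H => I p H * I q H) := by
  unfold Sh at hS
  push Not at hS
  exact lower hk (mem_Pairs.1 hq).ne hS.1.symm hS.2.2.1.symm hS.2.1.symm hS.2.2.2.symm
    (mem_Pairs.1 hp).ne hm

/-- `r` is contained in the union of `p` and `q` -/
def In (p q r : Fin n × Fin n) : Prop :=
  r.1 ∈ ({p.1, p.2, q.1, q.2} : Finset (Fin n)) ∧ r.2 ∈ ({p.1, p.2, q.1, q.2} : Finset (Fin n))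

instance (p q r : Fin n × Fin n) : Decidable (In p q r) := by unfold In; infer_instance

theorem card_four_le (a b c d : Fin n) : ({a, b, c, d} : Finset (Fin n)).card ≤ 4 := card_le_four

theorem triple_bound {k : ℕ} (hk : 1 ≤ k) {p q r : Fin n × Fin n} (hp : p ∈ Pairs n)
    (hq : q ∈ Pairs n) (hr : r ∈ Pairs n) (hpq : p ≠ q) (hpr : p ≠ r) (hqr : q ≠ r) {m : ℕ}
    (hm : 2 * m ≤ (n - 6).choose (k - 1)) :
    ex (Edges n k) (fun H => I p H * I q H * I r H) ≤
      cc ((n - 6).choose (k - 1)) * (cc ((n - 4).choose (k - 1)) * cc ((n - 2).choose (k - 1))) +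
      ((if Sh p q then 1 else 0) + (if Sh p r then 1 else 0) + (if Sh q r then 1 else 0)) *
        (cc m * (cc m * cc ((n - 2).choose (k - 1)))) +
      (if Sh p q then 1 else 0) * (if In p q r then 1 else 0) *
        (cc m * cc ((n - 2).choose (k - 1))) := by
  set c := cc ((n - 2).choose (k - 1)) with hc
  set c' := cc ((n - 4).choose (k - 1)) with hc'
  set c'' := cc ((n - 6).choose (k - 1)) with hc''
  have hc0 : 0 ≤ c := cc_nonneg _
  have hc0' : 0 ≤ c' := cc_nonneg _
  have hc0'' : 0 ≤ c'' := cc_nonneg _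
  have hcm : 0 ≤ cc m := cc_nonneg _
  have hm4 : 2 * m ≤ (n - 4).choose (k - 1) := hm.trans (Nat.choose_le_choose _ (by omega))
  have b1 : 0 ≤ (if Sh p q then (1 : ℝ) else 0) := by split_ifs <;> norm_num
  have b2 : 0 ≤ (if Sh p r then (1 : ℝ) else 0) := by split_ifs <;> norm_num
  have b3 : 0 ≤ (if Sh q r then (1 : ℝ) else 0) := by split_ifs <;> norm_num
  have b4 : 0 ≤ (if In p q r then (1 : ℝ) else 0) := by split_ifs <;> norm_num
  have p1 : 0 ≤ c'' * (c' * c) := by positivity
  have p2 : 0 ≤ cc m * (cc m * c) := by positivity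
  have p3 : 0 ≤ cc m * c := by positivity
  set F : Finset (Fin n) := {p.1, p.2, q.1, q.2} with hF
  have hFc : F.card ≤ 4 := card_four_le _ _ _ _
  have hdep : Dep F (fun H => I p H * I q H) :=
    Dep.mul (I_dep (by simp [hF]) (by simp [hF])) (I_dep (by simp [hF]) (by simp [hF]))
  have hpos : ∀ H, 0 ≤ I p H * I q H := fun H => mul_nonneg (I_nonneg _ _) (I_nonneg _ _)
  by_cases hall : ¬ Sh p q ∧ ¬ Sh p r ∧ ¬ Sh q r
  · obtain ⟨h1, h2, h3⟩ := hall
    have key : ex (Edges n k) (fun H => I p H * I q H * I r H) ≤ c'' * (c' * c) := by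
      have hpq2 := two_disjoint hk hp hq h1
      have hFc4 : F.card = 4 := by
        unfold Sh at h1
        push Not at h1
        have hp' := (mem_Pairs.1 hp).ne
        have hq' := (mem_Pairs.1 hq).ne
        rw [hF, card_insert_of_notMem, card_insert_of_notMem, card_pair hq']
        · simp [h1.2.2.1, h1.2.2.2]
        · simp [hp', h1.1, h1.2.1]
      unfold Sh at h2 h3
      push Not at h2 h3
      have h4 : r.1 ∉ F := by
        simp only [hF, mem_insert, mem_singleton, not_or]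
        exact ⟨h2.1.symm, h2.2.2.1.symm, h3.1.symm, h3.2.2.1.symm⟩
      have h5 : r.2 ∉ F := by
        simp only [hF, mem_insert, mem_singleton, not_or]
        exact ⟨h2.2.1.symm, h2.2.2.2.symm, h3.2.1.symm, h3.2.2.2.symm⟩
      have := upperF hk (F := F) (mem_Pairs.1 hr).ne h4 h5 hdep hpos
      rw [hFc4] at this
      exact this.trans (mul_le_mul_of_nonneg_left hpq2 hc0'')
    have q1 := mul_nonneg (add_nonneg (add_nonneg b1 b2) b3) p2
    have q2 := mul_nonneg (mul_nonneg b1 b4) p3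
    linarith
  · -- some two share a vertex
    have hsome : 1 ≤ (if Sh p q then (1 : ℝ) else 0) + (if Sh p r then 1 else 0) +
        (if Sh q r then 1 else 0) := by
      by_cases h1 : Sh p q
      · rw [if_pos h1]; linarith
      · by_cases h2 : Sh p r
        · rw [if_pos h2]; linarith
        · by_cases h3 : Sh q r
          · rw [if_pos h3]; linarith
          · exact absurd ⟨h1, h2, h3⟩ hall
    have q1 : cc m * (cc m * c) ≤ ((if Sh p q then (1 : ℝ) else 0) + (if Sh p r then 1 else 0) +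
        (if Sh q r then 1 else 0)) * (cc m * (cc m * c)) := le_mul_of_one_le_left p2 hsome
    have q2 := mul_nonneg (mul_nonneg b1 b4) p3
    by_cases hin : In p q r
    · by_cases h1 : Sh p q
      · rw [if_pos h1, if_pos hin, one_mul, one_mul]
        have key : ex (Edges n k) (fun H => I p H * I q H * I r H) ≤ cc m * c := by
          refine le_trans ?_ (two_any hk hp hq hpq hm4)
          apply ex_mono
          intro H _
          exact mul_le_of_le_one_right (hpos H) (I_le_one _ _)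
        have q3 : 0 ≤ (1 + (if Sh p r then (1 : ℝ) else 0) + (if Sh q r then 1 else 0)) *
          (cc m * (cc m * c)) := mul_nonneg (by linarith) p2
        linarith
      · -- `r` joins `p` and `q`
        have key : ex (Edges n k) (fun H => I p H * I q H * I r H) ≤ cc m * (cc m * c) := by
          have e1 : ex (Edges n k) (fun H => I p H * I q H * I r H) =
              ex (Edges n k) (fun H => I q H * I r H * I p H) := by
            congr 1; funext H; ring
          rw [e1]
          have hnew : p.1 ∉ ({q.1, q.2, r.1, r.2} : Finset (Fin n)) ∨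
              p.2 ∉ ({q.1, q.2, r.1, r.2} : Finset (Fin n)) := by
            by_contra hcon
            push Not at hcon
            simp only [mem_insert, mem_singleton] at hcon
            unfold Sh at h1
            push Not at h1
            obtain ⟨ha, hb⟩ := hcon
            apply hpr
            apply pair_eq_of hp hr
            · rcases ha with h | h | h | h
              · exact absurd h h1.1
              · exact absurd h h1.2.1
              · exact Or.inl h
              · exact Or.inr h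
            · rcases hb with h | h | h | h
              · exact absurd h h1.2.2.1
              · exact absurd h h1.2.2.2
              · exact Or.inl h
              · exact Or.inr h
          have hdep' : Dep ({q.1, q.2, r.1, r.2} : Finset (Fin n)) (fun H => I q H * I r H) :=
            Dep.mul (I_dep (by simp) (by simp)) (I_dep (by simp) (by simp))
          have := add_pair hk hp hnew hdep' (fun H => mul_nonneg (I_nonneg _ _) (I_nonneg _ _))
            (m := m) (hm.trans (Nat.choose_le_choose _ (by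
              have := card_four_le q.1 q.2 r.1 r.2
              omega)))
          exact this.trans (mul_le_mul_of_nonneg_left (two_any hk hq hr hqr hm4) hcm)
        linarith
    · have hnew : r.1 ∉ F ∨ r.2 ∉ F := by
        by_contra hcon
        push Not at hcon
        exact hin hcon
      have key : ex (Edges n k) (fun H => I p H * I q H * I r H) ≤ cc m * (cc m * c) := by
        have := add_pair hk hr hnew hdep hpos (m := m)
          (hm.trans (Nat.choose_le_choose _ (by omega)))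
        exact this.trans (mul_le_mul_of_nonneg_left (two_any hk hp hq hpq hm4) hcm)
      linarith

theorem card_Pairs_le (n : ℕ) : ((Pairs n).card : ℝ) ≤ (n : ℝ) ^ 2 := by
  have := card_le_card (subset_univ (Pairs n))
  rw [card_univ, Fintype.card_prod, Fintype.card_fin] at this
  rw [pow_two]
  exact_mod_cast this

/-- the sum of the triple products over triples of distinct pairs -/
theorem third_sum {k : ℕ} (hk : 1 ≤ k) {m : ℕ} (hm : 2 * m ≤ (n - 6).choose (k - 1)) :
    ∑ p ∈ Pairs n, ∑ q ∈ (Pairs n).erase p, ∑ r ∈ ((Pairs n).erase p).erase q,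
      ex (Edges n k) (fun H => I p H * I q H * I r H) ≤
    ((Pairs n).card : ℝ) ^ 3 * (cc ((n - 6).choose (k - 1)) *
      (cc ((n - 4).choose (k - 1)) * cc ((n - 2).choose (k - 1)))) +
    12 * (n : ℝ) ^ 5 * (cc m * (cc m * cc ((n - 2).choose (k - 1)))) +
    64 * (n : ℝ) ^ 3 * (cc m * cc ((n - 2).choose (k - 1))) := by
  set c := cc ((n - 2).choose (k - 1)) with hc
  set c' := cc ((n - 4).choose (k - 1)) with hc'
  set c'' := cc ((n - 6).choose (k - 1)) with hc''
  have hc0 : 0 ≤ c := cc_nonneg _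
  have hc0' : 0 ≤ c' := cc_nonneg _
  have hc0'' : 0 ≤ c'' := cc_nonneg _
  have hcm : 0 ≤ cc m := cc_nonneg _
  set T : Fin n × Fin n → Fin n × Fin n → Fin n × Fin n → ℝ := fun p q r =>
    c'' * (c' * c) +
      ((if Sh p q then 1 else 0) + (if Sh p r then 1 else 0) + (if Sh q r then 1 else 0)) *
        (cc m * (cc m * c)) +
      (if Sh p q then 1 else 0) * (if In p q r then 1 else 0) * (cc m * c) with hT
  have hT0 : ∀ p q r, 0 ≤ T p q r := by
    intro p q r
    have b1 : 0 ≤ (if Sh p q then (1 : ℝ) else 0) := by split_ifs <;> norm_num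
    have b2 : 0 ≤ (if Sh p r then (1 : ℝ) else 0) := by split_ifs <;> norm_num
    have b3 : 0 ≤ (if Sh q r then (1 : ℝ) else 0) := by split_ifs <;> norm_num
    have b4 : 0 ≤ (if In p q r then (1 : ℝ) else 0) := by split_ifs <;> norm_num
    simp only [hT]
    positivity
  have h1 : ∑ p ∈ Pairs n, ∑ q ∈ (Pairs n).erase p, ∑ r ∈ ((Pairs n).erase p).erase q,
      ex (Edges n k) (fun H => I p H * I q H * I r H) ≤
      ∑ p ∈ Pairs n, ∑ q ∈ Pairs n, ∑ r ∈ Pairs n, T p q r := by
    apply sum_le_sum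
    intro p hp
    calc ∑ q ∈ (Pairs n).erase p, ∑ r ∈ ((Pairs n).erase p).erase q,
          ex (Edges n k) (fun H => I p H * I q H * I r H)
        ≤ ∑ q ∈ (Pairs n).erase p, ∑ r ∈ Pairs n, T p q r := by
          apply sum_le_sum
          intro q hq
          rw [mem_erase] at hq
          calc ∑ r ∈ ((Pairs n).erase p).erase q, ex (Edges n k) (fun H => I p H * I q H * I r H)
              ≤ ∑ r ∈ ((Pairs n).erase p).erase q, T p q r := by
                apply sum_le_sum
                intro r hr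
                rw [mem_erase, mem_erase] at hr
                exact triple_bound hk hp hq.2 hr.2.2 (Ne.symm hq.1) (Ne.symm hr.2.1)
                  (Ne.symm hr.1) hm
            _ ≤ _ := sum_le_sum_of_subset_of_nonneg
                ((erase_subset _ _).trans (erase_subset _ _)) (fun r _ _ => hT0 p q r)
      _ ≤ _ := sum_le_sum_of_subset_of_nonneg (erase_subset _ _)
          (fun q _ _ => sum_nonneg fun r _ => hT0 p q r)
  refine h1.trans ?_
  set a : ℝ := ((Pairs n).card : ℝ) with ha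
  have ha0 : 0 ≤ a := Nat.cast_nonneg _
  have han : a ≤ (n : ℝ) ^ 2 := card_Pairs_le n
  have hnn : (0 : ℝ) ≤ n := Nat.cast_nonneg _
  have hsplit : ∑ p ∈ Pairs n, ∑ q ∈ Pairs n, ∑ r ∈ Pairs n, T p q r =
      ∑ p ∈ Pairs n, ∑ q ∈ Pairs n, ∑ r ∈ Pairs n, c'' * (c' * c) +
      (∑ p ∈ Pairs n, ∑ q ∈ Pairs n, ∑ r ∈ Pairs n, (if Sh p q then (1 : ℝ) else 0) +
      ∑ p ∈ Pairs n, ∑ q ∈ Pairs n, ∑ r ∈ Pairs n, (if Sh p r then (1 : ℝ) else 0) +
      ∑ p ∈ Pairs n, ∑ q ∈ Pairs n, ∑ r ∈ Pairs n, (if Sh q r then (1 : ℝ) else 0)) *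
        (cc m * (cc m * c)) +
      (∑ p ∈ Pairs n, ∑ q ∈ Pairs n, ∑ r ∈ Pairs n,
        (if Sh p q then (1 : ℝ) else 0) * (if In p q r then 1 else 0)) * (cc m * c) := by
    simp only [hT, sum_add_distrib, ← sum_mul]
  rw [hsplit]
  have s0 : ∑ p ∈ Pairs n, ∑ q ∈ Pairs n, ∑ r ∈ Pairs n, c'' * (c' * c) = a ^ 3 * (c'' * (c' * c)) := by
    simp_rw [sum_const, nsmul_eq_mul]
    rw [ha]; ring
  have s1 : ∑ p ∈ Pairs n, ∑ q ∈ Pairs n, ∑ r ∈ Pairs n, (if Sh p q then (1 : ℝ) else 0) ≤
      4 * (n : ℝ) ^ 5 := by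
    have : ∑ p ∈ Pairs n, ∑ q ∈ Pairs n, ∑ r ∈ Pairs n, (if Sh p q then (1 : ℝ) else 0) =
        a * ∑ p ∈ Pairs n, ∑ q ∈ Pairs n, (if Sh p q then (1 : ℝ) else 0) := by
      simp_rw [sum_const, nsmul_eq_mul, mul_sum]
      rfl
    rw [this]
    calc a * ∑ p ∈ Pairs n, ∑ q ∈ Pairs n, (if Sh p q then (1 : ℝ) else 0)
        ≤ a * (4 * (n : ℝ) ^ 3) := mul_le_mul_of_nonneg_left (sum_Sh n) ha0
      _ ≤ (n : ℝ) ^ 2 * (4 * (n : ℝ) ^ 3) := mul_le_mul_of_nonneg_right han (by positivity)
      _ = _ := by ring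
  have s2 : ∑ p ∈ Pairs n, ∑ q ∈ Pairs n, ∑ r ∈ Pairs n, (if Sh p r then (1 : ℝ) else 0) ≤
      4 * (n : ℝ) ^ 5 := by
    refine le_trans (le_of_eq ?_) s1
    apply sum_congr rfl
    intro p _
    exact sum_comm
  have s3 : ∑ p ∈ Pairs n, ∑ q ∈ Pairs n, ∑ r ∈ Pairs n, (if Sh q r then (1 : ℝ) else 0) ≤
      4 * (n : ℝ) ^ 5 := by
    rw [sum_const, nsmul_eq_mul]
    calc a * ∑ p ∈ Pairs n, ∑ q ∈ Pairs n, (if Sh p q then (1 : ℝ) else 0)
        ≤ a * (4 * (n : ℝ) ^ 3) := mul_le_mul_of_nonneg_left (sum_Sh n) ha0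
      _ ≤ (n : ℝ) ^ 2 * (4 * (n : ℝ) ^ 3) := mul_le_mul_of_nonneg_right han (by positivity)
      _ = _ := by ring
  have s4 : ∑ p ∈ Pairs n, ∑ q ∈ Pairs n, ∑ r ∈ Pairs n,
        (if Sh p q then (1 : ℝ) else 0) * (if In p q r then 1 else 0) ≤ 64 * (n : ℝ) ^ 3 := by
    have hin : ∀ p q : Fin n × Fin n, ∑ r ∈ Pairs n, (if In p q r then (1 : ℝ) else 0) ≤ 16 := by
      intro p q
      rw [← sum_filter, sum_const, nsmul_eq_mul, mul_one]
      have hsub : (Pairs n).filter (fun r => In p q r) ⊆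
          ({p.1, p.2, q.1, q.2} : Finset (Fin n)) ×ˢ ({p.1, p.2, q.1, q.2} : Finset (Fin n)) := by
        intro r hr
        rw [mem_filter] at hr
        rw [mem_product]
        exact hr.2
      have h2 := card_le_card hsub
      rw [card_product] at h2
      have h3 := card_four_le p.1 p.2 q.1 q.2
      have h4 : ((Pairs n).filter (fun r => In p q r)).card ≤ 16 := by nlinarith
      exact_mod_cast h4
    calc ∑ p ∈ Pairs n, ∑ q ∈ Pairs n, ∑ r ∈ Pairs n,
          (if Sh p q then (1 : ℝ) else 0) * (if In p q r then 1 else 0)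
        ≤ ∑ p ∈ Pairs n, ∑ q ∈ Pairs n, (if Sh p q then (1 : ℝ) else 0) * 16 := by
          apply sum_le_sum
          intro p _
          apply sum_le_sum
          intro q _
          rw [← mul_sum]
          apply mul_le_mul_of_nonneg_left (hin p q)
          split_ifs <;> norm_num
      _ = (∑ p ∈ Pairs n, ∑ q ∈ Pairs n, (if Sh p q then (1 : ℝ) else 0)) * 16 := by
          simp_rw [sum_mul]
      _ ≤ 4 * (n : ℝ) ^ 3 * 16 := mul_le_mul_of_nonneg_right (sum_Sh n) (by norm_num)
      _ = _ := by ring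
  rw [s0]
  have p2 : 0 ≤ cc m * (cc m * c) := by positivity
  have p3 : 0 ≤ cc m * c := by positivity
  have u1 := mul_le_mul_of_nonneg_right (add_le_add (add_le_add s1 s2) s3) p2
  have u2 := mul_le_mul_of_nonneg_right s4 p3
  linarith

theorem poly_ineq (z : ℕ) : (6 : ℝ) - 6 * z + 3 * ((z : ℝ) ^ 2 - z) - (z - 2) * ((z : ℝ) ^ 2 - z) ≤
    6 * ind (z = 0) := by
  rcases Nat.eq_zero_or_pos z with h | h
  · subst h
    rw [ind_true rfl]
    norm_num
  · rw [ind_false (by omega)]
    have e : (6 : ℝ) - 6 * z + 3 * ((z : ℝ) ^ 2 - z) - (z - 2) * ((z : ℝ) ^ 2 - z) =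
        -(((z : ℝ) - 1) * (z - 2) * (z - 3)) := by ring
    rw [e, mul_zero, neg_nonpos]
    rcases (show z = 1 ∨ z = 2 ∨ 3 ≤ z by omega) with h | h | h
    · subst h; norm_num
    · subst h; norm_num
    · have : (3 : ℝ) ≤ z := by exact_mod_cast h
      have h1 : 0 ≤ (z : ℝ) - 1 := by linarith
      have h2 : 0 ≤ (z : ℝ) - 2 := by linarith
      have h3 : 0 ≤ (z : ℝ) - 3 := by linarith
      positivity

/-- Bonferroni inequality -/
theorem bonf {k : ℕ} (hk : 1 ≤ k) {m : ℕ} (hm : 2 * m ≤ (n - 6).choose (k - 1))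
    (hm1 : 1 ≤ (n - 4).choose (k - 1)) {L : ℝ} (hL0 : 0 ≤ L)
    (hL : L ≤ cc ((n - 4).choose (k - 1)) * (cc ((n - 2).choose (k - 1)) -
      cc ((n - 4).choose (k - 1)) *
      ((((n - 2).choose (k - 1) : ℕ) - ((n - 4).choose (k - 1) : ℕ) : ℝ) / 2) /
        ((n - 4).choose (k - 1) : ℕ))) :
    6 - 6 * (((Pairs n).card : ℝ) * cc ((n - 2).choose (k - 1))) +
      3 * ((((Pairs n).card : ℝ) ^ 2 - 4 * (n : ℝ) ^ 3) * L) -
      (((Pairs n).card : ℝ) ^ 3 * (cc ((n - 6).choose (k - 1)) *
      (cc ((n - 4).choose (k - 1)) * cc ((n - 2).choose (k - 1)))) +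
      12 * (n : ℝ) ^ 5 * (cc m * (cc m * cc ((n - 2).choose (k - 1)))) +
      64 * (n : ℝ) ^ 3 * (cc m * cc ((n - 2).choose (k - 1)))) ≤ 6 * p0 n k := by
  have h3 := third_sum (n := n) hk hm
  set a : ℝ := ((Pairs n).card : ℝ) with ha
  set Z : Finset (Finset (Fin n)) → ℝ := fun H => ∑ p ∈ Pairs n, I p H with hZ
  have hEZ : ex (Edges n k) Z = a * cc ((n - 2).choose (k - 1)) := by
    rw [hZ, ex_sum, sum_congr rfl (fun p hp => ex_I hk hp), sum_const, nsmul_eq_mul]
  -- pointwise sums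
  have hD2 : ∀ H, ∑ p ∈ Pairs n, ∑ q ∈ (Pairs n).erase p, I p H * I q H = Z H ^ 2 - Z H := by
    intro H
    have : ∀ p ∈ Pairs n, ∑ q ∈ (Pairs n).erase p, I p H * I q H = I p H * Z H - I p H := by
      intro p hp
      rw [sum_erase_eq_sub hp, ← mul_sum, I_sq]
    rw [sum_congr rfl this, sum_sub_distrib, ← sum_mul]
    simp only [hZ]
    ring
  have hD3 : ∀ H, ∑ p ∈ Pairs n, ∑ q ∈ (Pairs n).erase p, ∑ r ∈ ((Pairs n).erase p).erase q,
      I p H * I q H * I r H = (Z H - 2) * (Z H ^ 2 - Z H) := by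
    intro H
    rw [← hD2 H, mul_sum]
    apply sum_congr rfl
    intro p hp
    rw [mul_sum]
    apply sum_congr rfl
    intro q hq
    rw [sum_erase_eq_sub hq, sum_erase_eq_sub hp, ← mul_sum]
    have e1 : I p H * I q H * I p H = I p H * I q H := by
      rw [mul_right_comm, I_sq]
    have e2 : I p H * I q H * I q H = I p H * I q H := by
      rw [mul_assoc, I_sq]
    rw [e1, e2]
    simp only [hZ]
    ring
  have hpt : ∀ H, (6 : ℝ) - 6 * Z H + 3 * (Z H ^ 2 - Z H) - (Z H - 2) * (Z H ^ 2 - Z H) ≤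
      6 * ind (∀ p ∈ Pairs n, ¬ A p.1 p.2 H) := by
    intro H
    classical
    have hZc : Z H = (((Pairs n).filter (fun p => A p.1 p.2 H)).card : ℝ) := by
      simp only [hZ]
      rw [card_filter]
      push_cast
      apply sum_congr rfl
      intro p _
      unfold I
      by_cases h : A p.1 p.2 H
      · rw [ind_true h, if_pos h]
      · rw [ind_false h, if_neg h]
    rw [hZc]
    refine (poly_ineq _).trans (le_of_eq ?_)
    congr 1
    congr 1
    rw [card_eq_zero, filter_eq_empty_iff]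
  have hE : 6 - 6 * ex (Edges n k) Z + 3 * ex (Edges n k) (fun H => Z H ^ 2 - Z H) -
      ex (Edges n k) (fun H => (Z H - 2) * (Z H ^ 2 - Z H)) ≤ 6 * p0 n k := by
    unfold p0
    rw [← ex_const_mul, ← ex_const_mul, ← ex_const_mul, ← ex_const (Edges n k) 6, ← ex_sub,
      ← ex_add, ← ex_sub]
    exact ex_mono fun H _ => by
      have := hpt H
      rw [ex_const]
      exact this
  have hE2 : (a ^ 2 - 4 * (n : ℝ) ^ 3) * L ≤ ex (Edges n k) (fun H => Z H ^ 2 - Z H) := by
    have e1 : ex (Edges n k) (fun H => Z H ^ 2 - Z H) =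
        ∑ p ∈ Pairs n, ∑ q ∈ (Pairs n).erase p, ex (Edges n k) (fun H => I p H * I q H) := by
      rw [← sum_congr rfl (fun p _ => ex_sum ((Pairs n).erase p) (Edges n k)
        (fun q H => I p H * I q H)), ← ex_sum]
      congr 1
      funext H
      rw [← hD2 H]
    rw [e1]
    have e2 : ∀ p ∈ Pairs n, ∑ q ∈ Pairs n, (1 - (if Sh p q then (1 : ℝ) else 0)) * L ≤
        ∑ q ∈ (Pairs n).erase p, ex (Edges n k) (fun H => I p H * I q H) := by
      intro p hp
      have hpp : Sh p p := Or.inl rfl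
      have e3 : ∑ q ∈ Pairs n, (1 - (if Sh p q then (1 : ℝ) else 0)) * L =
          ∑ q ∈ (Pairs n).erase p, (1 - (if Sh p q then (1 : ℝ) else 0)) * L := by
        rw [sum_erase_eq_sub hp, if_pos hpp]
        ring
      rw [e3]
      apply sum_le_sum
      intro q hq
      rw [mem_erase] at hq
      by_cases h : Sh p q
      · rw [if_pos h]
        have : 0 ≤ ex (Edges n k) (fun H => I p H * I q H) :=
          ex_nonneg fun H _ => mul_nonneg (I_nonneg _ _) (I_nonneg _ _)
        linarith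
      · rw [if_neg h]
        have := two_lower hk hp hq.2 h hm1
        linarith
    refine le_trans ?_ (sum_le_sum e2)
    have e4 : ∑ p ∈ Pairs n, ∑ q ∈ Pairs n, (1 - (if Sh p q then (1 : ℝ) else 0)) * L =
        (a ^ 2 - ∑ p ∈ Pairs n, ∑ q ∈ Pairs n, (if Sh p q then (1 : ℝ) else 0)) * L := by
      simp_rw [← sum_mul, sum_sub_distrib, sum_const, nsmul_eq_mul]
      rw [ha]; ring
    rw [e4]
    apply mul_le_mul_of_nonneg_right _ hL0
    have := sum_Sh n
    linarith
  have hE3 : ex (Edges n k) (fun H => (Z H - 2) * (Z H ^ 2 - Z H)) =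
      ∑ p ∈ Pairs n, ∑ q ∈ (Pairs n).erase p, ∑ r ∈ ((Pairs n).erase p).erase q,
      ex (Edges n k) (fun H => I p H * I q H * I r H) := by
    have : (fun H => (Z H - 2) * (Z H ^ 2 - Z H)) = (fun H => ∑ p ∈ Pairs n,
      ∑ q ∈ (Pairs n).erase p, ∑ r ∈ ((Pairs n).erase p).erase q, I p H * I q H * I r H) := by
      funext H
      rw [hD3 H]
    rw [this, ex_sum]
    apply sum_congr rfl
    intro p _
    rw [ex_sum]
    apply sum_congr rfl
    intro q _
    rw [ex_sum]
  rw [hEZ, hE3] at hE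
  linarith

end Pool.Agent.N439.RH
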